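import Mathlib

/-!
# MP_eceddd_an: reachable sets of products of real 2x2 matrices (helper11)

Definitions, the counting tools, removal of the singular matrices.
-/

set_option autoImplicit false

open scoped Matrix

namespace Pool.Oligo

/-- real 2x2 matrices -/
abbrev M2 : Type := Matrix (Fin 2) (Fin 2) ℝ

/-- plane vectors -/
abbrev V2 : Type := Fin 2 → ℝ

/-- the states `T_{k-1} ... T_0 a` reachable after `k` steps -/
def states (S : Finset M2) (a : V2) : ℕ → Set V2
  | 0 => {a}
  | k + 1 => {y | ∃ T ∈ S, ∃ x ∈ states S a k, y = T *ᵥ x}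

/-- the extreme points of `P_k(S, a)` -/
def verts (S : Finset M2) (a : V2) (k : ℕ) : Set V2 :=
  Set.extremePoints ℝ (convexHull ℝ (states S a k))

/-- the polynomial-vertex property: `N_k(S) = O(k ^ d)` for some `d > 0` -/
def PolyVertex (S : Finset M2) : Prop :=
  ∃ C d : ℕ, 0 < C ∧ 0 < d ∧ ∀ k : ℕ, 1 ≤ k → ∀ a : V2, (verts S a k).encard ≤ (C * k ^ d : ℕ)

/-! ## counting tools -/

lemma encard_pair_le' {α : Type*} (x y : α) : ({x, y} : Set α).encard ≤ 2 := by
  refine (Set.encard_insert_le _ _).trans ?_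
  rw [Set.encard_singleton]; norm_num

lemma encard_le_two {α : Type*} (E : Set α)
    (h : ∀ x ∈ E, ∀ y ∈ E, ∀ z ∈ E, x = y ∨ y = z ∨ x = z) : E.encard ≤ 2 := by
  rcases E.eq_empty_or_nonempty with rfl | ⟨x, hx⟩
  · simp
  · by_cases h1 : ∃ y ∈ E, y ≠ x
    · obtain ⟨y, hy, hyx⟩ := h1
      have hsub : E ⊆ {x, y} := by
        intro z hz
        rcases h x hx y hy z hz with h2 | h2 | h2
        · exact absurd h2.symm hyx
        · right; exact h2.symm
        · left; exact h2.symm
      exact (Set.encard_le_encard hsub).trans (encard_pair_le' x y)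
    · push Not at h1
      have hsub : E ⊆ {x} := fun z hz => h1 z hz
      exact (Set.encard_le_encard hsub).trans (by rw [Set.encard_singleton]; norm_num)

lemma encard_le_of_cover {α ι : Type*} [Fintype ι] (E : Set α) (L : ι → Set α)
    (hE : ∀ x ∈ E, ∃ i, x ∈ L i) (c : ℕ) (hL : ∀ i, (E ∩ L i).encard ≤ c) :
    E.encard ≤ (Fintype.card ι * c : ℕ) := by
  classical
  have h1 : ∀ s : Finset ι, (⋃ i ∈ s, E ∩ L i).encard ≤ (s.card * c : ℕ) := by
    intro s
    induction s using Finset.induction_on with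
    | empty => simp
    | insert i s hi ih =>
      rw [Finset.set_biUnion_insert, Finset.card_insert_of_notMem hi]
      refine (Set.encard_union_le _ _).trans ?_
      have : (((s.card + 1) * c : ℕ) : ℕ∞) = (c : ℕ∞) + (s.card * c : ℕ) := by
        push_cast; ring
      rw [this]
      exact add_le_add (hL i) ih
  have h2 : E ⊆ ⋃ i ∈ (Finset.univ : Finset ι), E ∩ L i := by
    intro x hx
    obtain ⟨i, hi⟩ := hE x hx
    exact Set.mem_biUnion (Finset.mem_coe.mpr (Finset.mem_univ i)) ⟨hx, hi⟩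
  have h3 := (Set.encard_le_encard h2).trans (h1 Finset.univ)
  rwa [Finset.card_univ] at h3

/-- a point strictly between two others on a line is not extreme -/
lemma not_ext_mid {P : Set V2} {x y z : V2} (hx : x ∈ P) (hz : z ∈ P) (s : ℝ) (hs0 : 0 < s)
    (hs1 : s < 1) (hxz : x ≠ z) (hy : y = (1 - s) • x + s • z) : y ∉ Set.extremePoints ℝ P := by
  intro h
  have h1 := h.2 hx hz ⟨1 - s, s, by linarith, hs0, by ring, hy.symm⟩
  have h2 : s • (z - x) = 0 := by
    have : y = x := h1.symm
    rw [hy] at this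
    have h3 : (1 - s) • x + s • z - x = s • (z - x) := by
      rw [smul_sub, sub_smul, one_smul]; abel
    rw [← h3, this, sub_self]
  rcases smul_eq_zero.mp h2 with h3 | h3
  · exact hs0.ne' h3
  · exact hxz (sub_eq_zero.mp h3).symm

/-- at most two extreme points lie on a line -/
lemma two_on_line {P : Set V2} (v w : V2) (c : ℝ) (hvw : v 0 * w 1 - v 1 * w 0 ≠ 0) :
    (Set.extremePoints ℝ P ∩ {y | v 0 * y 1 - v 1 * y 0 = c}).encard ≤ 2 := by
  apply encard_le_two
  -- the second coordinate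
  set ψ : V2 → ℝ := fun y => w 0 * y 1 - w 1 * y 0 with hψ
  have hinj : ∀ x y : V2, v 0 * x 1 - v 1 * x 0 = v 0 * y 1 - v 1 * y 0 → ψ x = ψ y → x = y := by
    intro x y h1 h2
    simp only [hψ] at h2
    have e1 : (v 0 * w 1 - v 1 * w 0) * (x 0 - y 0) = 0 := by
      linear_combination w 0 * h1 - v 0 * h2
    have e2 : (v 0 * w 1 - v 1 * w 0) * (x 1 - y 1) = 0 := by
      linear_combination w 1 * h1 - v 1 * h2
    have e3 := (mul_eq_zero.mp e1).resolve_left hvw
    have e4 := (mul_eq_zero.mp e2).resolve_left hvw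
    funext i
    fin_cases i
    · simpa using sub_eq_zero.mp e3
    · simpa using sub_eq_zero.mp e4
  have key : ∀ x y z : V2, x ∈ P → z ∈ P → v 0 * x 1 - v 1 * x 0 = c →
      v 0 * y 1 - v 1 * y 0 = c → v 0 * z 1 - v 1 * z 0 = c → ψ x < ψ y → ψ y < ψ z →
      y ∉ Set.extremePoints ℝ P := by
    intro x y z hx hz h1 h2 h3 h4 h5
    have hd : 0 < ψ z - ψ x := by linarith
    refine not_ext_mid hx hz ((ψ y - ψ x) / (ψ z - ψ x)) (div_pos (by linarith) hd)
      ((div_lt_one hd).mpr (by linarith)) ?_ ?_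
    · rintro rfl; linarith
    · set s := (ψ y - ψ x) / (ψ z - ψ x) with hs
      have hs' : s * (ψ z - ψ x) = ψ y - ψ x := by rw [hs]; field_simp
      apply hinj
      · simp only [Pi.add_apply, Pi.smul_apply, smul_eq_mul]
        linear_combination h2 - (1 - s) * h1 - s * h3
      · have : ψ ((1 - s) • x + s • z) = (1 - s) * ψ x + s * ψ z := by
          simp only [hψ, Pi.add_apply, Pi.smul_apply, smul_eq_mul]; ring
        rw [this]; linear_combination -hs'
  rintro x ⟨hx, hxc⟩ y ⟨hy, hyc⟩ z ⟨hz, hzc⟩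
  by_contra hcon
  push Not at hcon
  obtain ⟨n1, n2, n3⟩ := hcon
  have hxP := hx.1
  have hyP := hy.1
  have hzP := hz.1
  have m1 : ψ x ≠ ψ y := fun h => n1 (hinj _ _ (hxc.trans hyc.symm) h)
  have m2 : ψ y ≠ ψ z := fun h => n2 (hinj _ _ (hyc.trans hzc.symm) h)
  have m3 : ψ x ≠ ψ z := fun h => n3 (hinj _ _ (hxc.trans hzc.symm) h)
  rcases lt_or_gt_of_ne m1 with h1 | h1 <;> rcases lt_or_gt_of_ne m2 with h2 | h2 <;>
    rcases lt_or_gt_of_ne m3 with h3 | h3
  · exact key x y z hxP hzP hxc hyc hzc h1 h2 hy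
  · linarith
  · exact key x z y hxP hyP hxc hzc hyc h3 h2 hz
  · exact key z x y hzP hyP hzc hxc hyc h3 h1 hx
  · exact key y x z hyP hzP hyc hxc hzc h1 h3 hx
  · exact key y z x hyP hxP hyc hzc hxc h2 h3 hz
  · linarith
  · exact key z y x hzP hxP hzc hyc hxc h2 h1 hy

/-! ## states -/

lemma states_finite (S : Finset M2) (a : V2) (k : ℕ) : (states S a k).Finite := by
  induction k with
  | zero => exact Set.finite_singleton a
  | succ k ih =>
    have : states S a (k + 1) = ⋃ T ∈ S, (fun x => T *ᵥ x) '' states S a k := by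
      ext y
      simp only [states, Set.mem_ofPred_eq, Set.mem_iUnion, Set.mem_image, exists_prop]
      constructor
      · rintro ⟨T, hT, x, hx, rfl⟩; exact ⟨T, hT, x, hx, rfl⟩
      · rintro ⟨T, hT, x, hx, rfl⟩; exact ⟨T, hT, x, hx, rfl⟩
    rw [this]
    exact S.finite_toSet.biUnion fun T _ => ih.image _

lemma states_smul (S : Finset M2) (a : V2) (c : ℝ) (k : ℕ) (y : V2) (hy : y ∈ states S a k) :
    c • y ∈ states S (c • a) k := by
  induction k generalizing y with
  | zero =>
    have : y = a := hy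
    rw [this]; rfl
  | succ k ih =>
    obtain ⟨T, hT, x, hx, rfl⟩ := hy
    exact ⟨T, hT, c • x, ih x hx, by rw [Matrix.mulVec_smul]⟩

lemma verts_subset (S : Finset M2) (a : V2) (k : ℕ) : verts S a k ⊆ states S a k :=
  extremePoints_convexHull_subset

end Pool.Oligo
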