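import Pool.Agent.Work.MP_eceddd_h11.Red

/-!
# MP_eceddd_an: the two structural cases (helper11)

* a common real eigenvector;
* a commutative subgroup of finite index.
-/

set_option autoImplicit false

open scoped Matrix

namespace Pool.Oligo

lemma poly_of_bound (S : Finset M2) (C m : ℕ)
    (h : ∀ k a, (verts S a k).encard ≤ (C * (k + 1) ^ m : ℕ)) : PolyVertex S := by
  refine ⟨C * 2 ^ m + 1, m + 1, by omega, by omega, fun k hk a => (h k a).trans ?_⟩
  have h1 : (k + 1) ^ m ≤ 2 ^ m * k ^ m := by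
    rw [← mul_pow]; exact Nat.pow_le_pow_left (by omega) m
  have h2 : k ^ m ≤ k ^ (m + 1) := Nat.pow_le_pow_right hk (by omega)
  have h3 : C * (k + 1) ^ m ≤ (C * 2 ^ m + 1) * k ^ (m + 1) := by
    calc C * (k + 1) ^ m ≤ C * (2 ^ m * k ^ m) := Nat.mul_le_mul_left _ h1
      _ = C * 2 ^ m * k ^ m := by ring
      _ ≤ (C * 2 ^ m + 1) * k ^ (m + 1) := Nat.mul_le_mul (by omega) h2
  exact_mod_cast h3

lemma prod_step {ι M : Type*} [Fintype ι] [DecidableEq ι] [CommMonoid M] (c : ι → M) (n : ι → ℕ)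
    (j : ι) : ∏ i, c i ^ (n i + if i = j then 1 else 0) = c j * ∏ i, c i ^ n i := by
  have h : ∀ i, c i ^ (n i + if i = j then 1 else 0) =
      (if i = j then c i else 1) * c i ^ n i := by
    intro i
    by_cases hi : i = j
    · rw [if_pos hi, if_pos hi, pow_succ, mul_comm]
    · rw [if_neg hi, if_neg hi, add_zero, one_mul]
  rw [Finset.prod_congr rfl fun i _ => h i, Finset.prod_mul_distrib, Finset.prod_ite_eq']
  simp

/-- a common real eigenvector gives the property -/
theorem poly_of_eigen (S : Finset M2) (v : V2) (hv : v ≠ 0)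
    (h : ∀ T ∈ S, ∃ c : ℝ, T *ᵥ v = c • v) : PolyVertex S := by
  classical
  choose! lam hlam using h
  set φ : V2 → ℝ := fun y => v 0 * y 1 - v 1 * y 0 with hφ
  have hstep : ∀ T ∈ S, ∀ y, φ (T *ᵥ y) = (T 0 0 + T 1 1 - lam T) * φ y := by
    intro T hT y
    have h0 := congrFun (hlam T hT) 0
    have h1 := congrFun (hlam T hT) 1
    simp only [Matrix.mulVec, dotProduct, Fin.sum_univ_two, Pi.smul_apply, smul_eq_mul] at h0 h1
    simp only [hφ, Matrix.mulVec, dotProduct, Fin.sum_univ_two]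
    linear_combination y 0 * h1 - y 1 * h0
  have hst : ∀ k a, ∀ y ∈ states S a k, ∃ n : S → ℕ, (∀ T, n T ≤ k) ∧
      φ y = (∏ T : S, ((T : M2) 0 0 + (T : M2) 1 1 - lam T) ^ n T) * φ a := by
    intro k a
    induction k with
    | zero =>
      intro y hy
      have : y = a := hy
      exact ⟨fun _ => 0, fun _ => le_rfl, by rw [this]; simp⟩
    | succ k ih =>
      rintro y ⟨T, hT, x, hx, rfl⟩
      obtain ⟨n, hn, hx'⟩ := ih x hx
      refine ⟨fun i => n i + if i = ⟨T, hT⟩ then 1 else 0, fun i => ?_, ?_⟩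
      · have := hn i
        dsimp only
        split_ifs <;> omega
      · rw [hstep T hT, hx', prod_step]
        ring
  apply poly_of_bound S 2 S.card
  intro k a
  obtain ⟨w, hw0, hw1⟩ : ∃ w : V2, w 0 = -v 1 ∧ w 1 = v 0 :=
    ⟨fun i => if i = 0 then -v 1 else v 0, by simp, by simp⟩
  have hw : v 0 * w 1 - v 1 * w 0 ≠ 0 := by
    rw [hw0, hw1]
    intro h0
    apply hv
    have h1 : v 0 = 0 := by nlinarith [sq_nonneg (v 0), sq_nonneg (v 1)]
    have h2 : v 1 = 0 := by nlinarith [sq_nonneg (v 0), sq_nonneg (v 1)]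
    funext i
    fin_cases i
    · simpa using h1
    · simpa using h2
  have h1 := encard_le_of_cover (verts S a k)
    (fun n : S → Fin (k + 1) => {y | v 0 * y 1 - v 1 * y 0 =
      (∏ T : S, ((T : M2) 0 0 + (T : M2) 1 1 - lam T) ^ (n T : ℕ)) * φ a})
    (by
      intro y hy
      obtain ⟨n, hn, hyn⟩ := hst k a y (verts_subset S a k hy)
      exact ⟨fun T => ⟨n T, Nat.lt_succ_of_le (hn T)⟩, hyn⟩) 2
    (fun n => two_on_line v w _ hw)
  refine h1.trans ?_
  have h2 : Fintype.card (S → Fin (k + 1)) = (k + 1) ^ S.card := by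
    rw [Fintype.card_fun, Fintype.card_fin, Fintype.card_coe]
  rw [h2, mul_comm]

/-- a commutative subgroup of finite index gives the property -/
theorem poly_of_va (S : Finset M2) (G : Subgroup (GL (Fin 2) ℝ))
    (hS : ∀ T ∈ S, ∃ g : G, ((g : GL (Fin 2) ℝ) : M2) = T) (A : Subgroup G) (hA : A.FiniteIndex)
    (hc : ∀ x ∈ A, ∀ y ∈ A, x * y = y * x) : PolyVertex S := by
  classical
  have := hA
  have : Fintype (G ⧸ A) := Fintype.ofFinite _
  let _ : CommGroup A := { (inferInstance : Group A) with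
    mul_comm := fun x y => Subtype.ext (hc x x.2 y y.2) }
  choose! gg hgg using hS
  set t : G ⧸ A → G := fun q => q.out with ht
  have htq : ∀ q : G ⧸ A, (QuotientGroup.mk (t q) : G ⧸ A) = q := fun q => Quotient.out_eq' q
  have hmem : ∀ (g : G) (q : G ⧸ A), (t (g • q))⁻¹ * (g * t q) ∈ A := by
    intro g q
    rw [← QuotientGroup.eq, htq]
    conv_lhs => rw [← htq q]
    rfl
  set cc : S × (G ⧸ A) → A := fun p => ⟨_, hmem (gg p.1) p.2⟩ with hcc
  have hccv : ∀ (T : S) (q : G ⧸ A), gg T * t q = t (gg T • q) * (cc (T, q) : G) := by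
    intro T q
    simp only [hcc]
    group
  set q0 : G ⧸ A := QuotientGroup.mk 1 with hq0
  have hst : ∀ k a, ∀ y ∈ states S a k, ∃ (q : G ⧸ A) (n : S × (G ⧸ A) → ℕ), (∀ i, n i ≤ k) ∧
      y = (((t q * ((∏ i, cc i ^ n i : A) : G) * (t q0)⁻¹ : G) : GL (Fin 2) ℝ) : M2) *ᵥ a := by
    intro k a
    induction k with
    | zero =>
      intro y hy
      have : y = a := hy
      refine ⟨q0, fun _ => 0, fun _ => le_rfl, ?_⟩
      simp [this]
    | succ k ih =>
      rintro y ⟨T, hT, x, hx, rfl⟩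
      obtain ⟨q, n, hn, hx'⟩ := ih x hx
      refine ⟨gg T • q, fun i => n i + if i = (⟨T, hT⟩, q) then 1 else 0, fun i => ?_, ?_⟩
      · have := hn i
        dsimp only
        split_ifs <;> omega
      · rw [hx', prod_step, Matrix.mulVec_mulVec]
        congr 1
        conv_lhs => rw [← hgg T hT]
        rw [← Units.val_mul, ← Subgroup.coe_mul]
        congr 2
        rw [Subgroup.coe_mul, ← mul_assoc, ← mul_assoc, hccv ⟨T, hT⟩ q]
        simp only [mul_assoc]
  set N := Fintype.card (G ⧸ A) with hN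
  apply poly_of_bound S N (S.card * N)
  intro k a
  have h1 := encard_le_of_cover (verts S a k)
    (fun p : (G ⧸ A) × (S × (G ⧸ A) → Fin (k + 1)) =>
      ({(((t p.1 * ((∏ i, cc i ^ (p.2 i : ℕ) : A) : G) * (t q0)⁻¹ : G) : GL (Fin 2) ℝ) : M2) *ᵥ a}
        : Set V2))
    (by
      intro y hy
      obtain ⟨q, n, hn, hyn⟩ := hst k a y (verts_subset S a k hy)
      exact ⟨(q, fun i => ⟨n i, Nat.lt_succ_of_le (hn i)⟩), hyn⟩) 1
    (fun p => by
      refine (Set.encard_le_encard Set.inter_subset_right).trans ?_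
      rw [Set.encard_singleton]; rfl)
  refine h1.trans ?_
  have h2 : Fintype.card ((G ⧸ A) × (S × (G ⧸ A) → Fin (k + 1))) = N * (k + 1) ^ (S.card * N) := by
    rw [Fintype.card_prod, Fintype.card_fun, Fintype.card_fin, Fintype.card_prod,
      Fintype.card_coe]
  rw [h2, mul_one]

end Pool.Oligo
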