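import Pool.Agent.Work.MP_eceddd_h11.Red

/-!
# MP_eceddd_an: pairs of matrices with few double survivors (helper11)
-/

set_option autoImplicit false

open scoped Matrix

namespace Pool.Oligo

/-- the contradiction behind uniqueness in a quadrant -/
lemma core_alg (l m a b c d x1 x2 y1 y2 c1 c2 : ℝ) (hl0 : 0 < l) (hl1 : l < 1) (hm : 1 < m)
    (ha : 0 < a) (hb : 0 < b) (hc : 0 < c) (hd : 0 < d) (hc1 : 0 < c1) (hc2 : 0 < c2)
    (hord : m * b * c < l * a * d)
    (e1 : l * a * y1 + m * b * y2 = c1) (i1 : a * y1 + b * y2 ≤ c1) (j1 : a * x1 + b * x2 ≤ c1)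
    (e2 : c * x1 + d * x2 = c2) (i2 : l * c * x1 + m * d * x2 ≤ c2)
    (j2 : l * c * y1 + m * d * y2 ≤ c2) : False := by
  have hP : b * c < a * d := by
    have h1 : b * c < m * b * c := by
      have : 0 < b * c := mul_pos hb hc
      nlinarith
    have h2 : l * a * d < a * d := by
      have : 0 < a * d := mul_pos ha hd
      nlinarith
    linarith
  have hab : 0 < a * b := mul_pos ha hb
  have hcd : 0 < c * d := mul_pos hc hd
  have hml : 0 < m - l := by linarith
  have k1 : (l * (m - 1) * (b * c) + m * (1 - l) * (a * d)) * c1 ≤ (m - l) * (a * b) * c2 := by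
    have h1 : (m - l) * (a * b) * (l * c * y1 + m * d * y2) ≤ (m - l) * (a * b) * c2 :=
      mul_le_mul_of_nonneg_left j2 (by positivity)
    have h2 : 0 ≤ l * m * (a * d - b * c) * ((m - 1) * (b * y2) - (1 - l) * (a * y1)) := by
      apply mul_nonneg
      · have : 0 ≤ a * d - b * c := by linarith
        positivity
      · rw [← e1] at i1; nlinarith
    have h3 : (m - l) * (a * b) * (l * c * y1 + m * d * y2) -
        (l * (m - 1) * (b * c) + m * (1 - l) * (a * d)) * c1 =
        l * m * (a * d - b * c) * ((m - 1) * (b * y2) - (1 - l) * (a * y1)) := by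
      rw [← e1]; ring
    linarith
  have k2 : ((m - 1) * (a * d) + (1 - l) * (b * c)) * c2 ≤ (m - l) * (c * d) * c1 := by
    have h1 : (m - l) * (c * d) * (a * x1 + b * x2) ≤ (m - l) * (c * d) * c1 :=
      mul_le_mul_of_nonneg_left j1 (by positivity)
    have h2 : 0 ≤ (a * d - b * c) * ((1 - l) * (c * x1) - (m - 1) * (d * x2)) := by
      apply mul_nonneg
      · linarith
      · rw [← e2] at i2; nlinarith
    have h3 : (m - l) * (c * d) * (a * x1 + b * x2) -
        ((m - 1) * (a * d) + (1 - l) * (b * c)) * c2 =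
        (a * d - b * c) * ((1 - l) * (c * x1) - (m - 1) * (d * x2)) := by
      rw [← e2]; ring
    linarith
  set P := a * d with hPd
  set Q := b * c with hQd
  have hP0 : 0 < P := mul_pos ha hd
  have hQ0 : 0 < Q := mul_pos hb hc
  have hl1' : 0 < 1 - l := by linarith
  have hm1' : 0 < m - 1 := by linarith
  have k3 : ((l * (m - 1) * Q + m * (1 - l) * P) * c1) * (((m - 1) * P + (1 - l) * Q) * c2) ≤
      ((m - l) * (a * b) * c2) * ((m - l) * (c * d) * c1) := by
    apply mul_le_mul k1 k2 <;> positivity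
  have k4 : ((l * (m - 1) * Q + m * (1 - l) * P) * ((m - 1) * P + (1 - l) * Q)) ≤
      (m - l) ^ 2 * (P * Q) := by
    have h1 : ((l * (m - 1) * Q + m * (1 - l) * P) * ((m - 1) * P + (1 - l) * Q)) * (c1 * c2) ≤
        ((m - l) ^ 2 * (P * Q)) * (c1 * c2) := by
      calc _ = ((l * (m - 1) * Q + m * (1 - l) * P) * c1) * (((m - 1) * P + (1 - l) * Q) * c2) := by
            ring
        _ ≤ _ := k3
        _ = _ := by rw [hPd, hQd]; ring
    exact le_of_mul_le_mul_right h1 (mul_pos hc1 hc2)
  have k5 : (l * (m - 1) * Q + m * (1 - l) * P) * ((m - 1) * P + (1 - l) * Q) -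
      (m - l) ^ 2 * (P * Q) = (1 - l) * (m - 1) * ((m * P - l * Q) * (P - Q)) := by ring
  have k6 : 0 < (1 - l) * (m - 1) * ((m * P - l * Q) * (P - Q)) := by
    have h1 : 0 < P - Q := by linarith
    have h2 : 0 < m * P - l * Q := by nlinarith
    positivity
  linarith

/-- double survivors in eigencoordinates -/
def Dd {α : Type*} (X : Set α) (f g : α → ℝ) (l m : ℝ) (x : α) : Prop :=
  x ∈ X ∧
  (∃ c d : ℝ, 0 < c * f x + d * g x ∧
    (∀ z ∈ X, z ≠ x → c * f z + d * g z < c * f x + d * g x) ∧
    ∀ z ∈ X, l * c * f z + m * d * g z ≤ c * f x + d * g x) ∧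
  ∃ a b : ℝ, 0 < l * a * f x + m * b * g x ∧
    (∀ z ∈ X, z ≠ x → l * a * f z + m * b * g z < l * a * f x + m * b * g x) ∧
    ∀ z ∈ X, a * f z + b * g z ≤ l * a * f x + m * b * g x

/-- the double survivors of quadrant type -/
def Qd {α : Type*} (X : Set α) (f g : α → ℝ) (l m : ℝ) (x : α) : Prop :=
  x ∈ X ∧ 0 < f x ∧ 0 < g x ∧
  (∃ c d : ℝ, 0 < c ∧ 0 < d ∧
    (∀ z ∈ X, z ≠ x → c * f z + d * g z < c * f x + d * g x) ∧
    ∀ z ∈ X, l * c * f z + m * d * g z ≤ c * f x + d * g x) ∧
  ∃ a b : ℝ, 0 < a ∧ 0 < b ∧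
    (∀ z ∈ X, z ≠ x → l * a * f z + m * b * g z < l * a * f x + m * b * g x) ∧
    ∀ z ∈ X, a * f z + b * g z ≤ l * a * f x + m * b * g x

lemma Dd_neg_f {α : Type*} {X : Set α} {f g : α → ℝ} {l m : ℝ} {x : α} (h : Dd X f g l m x) :
    Dd X (fun z => -f z) g l m x := by
  obtain ⟨hx, ⟨c, d, h1, h2, h3⟩, ⟨a, b, h4, h5, h6⟩⟩ := h
  refine ⟨hx, ⟨-c, d, ?_, ?_, ?_⟩, ⟨-a, b, ?_, ?_, ?_⟩⟩
  · linarith
  · intro z hz hzx; have := h2 z hz hzx; linarith
  · intro z hz; have := h3 z hz; linarith
  · linarith
  · intro z hz hzx; have := h5 z hz hzx; linarith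
  · intro z hz; have := h6 z hz; linarith

lemma Dd_neg_g {α : Type*} {X : Set α} {f g : α → ℝ} {l m : ℝ} {x : α} (h : Dd X f g l m x) :
    Dd X f (fun z => -g z) l m x := by
  obtain ⟨hx, ⟨c, d, h1, h2, h3⟩, ⟨a, b, h4, h5, h6⟩⟩ := h
  refine ⟨hx, ⟨c, -d, ?_, ?_, ?_⟩, ⟨a, -b, ?_, ?_, ?_⟩⟩
  · linarith
  · intro z hz hzx; have := h2 z hz hzx; linarith
  · intro z hz; have := h3 z hz; linarith
  · linarith
  · intro z hz hzx; have := h5 z hz hzx; linarith
  · intro z hz; have := h6 z hz; linarith

lemma Qd_unique {α : Type*} {X : Set α} {f g : α → ℝ} {l m : ℝ} (hl0 : 0 < l) (hl1 : l < 1)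
    (hm : 1 < m) {x y : α} (hx : Qd X f g l m x) (hy : Qd X f g l m y) : x = y := by
  by_contra hxy
  obtain ⟨hxX, fx, gx, ⟨c, d, hc, hd, h2, h3⟩, ⟨a, b, ha, hb, h5, h6⟩⟩ := hx
  obtain ⟨hyX, fy, gy, ⟨c', d', hc', hd', h2', h3'⟩, ⟨a', b', ha', hb', h5', h6'⟩⟩ := hy
  have s1 := h2 y hyX (Ne.symm hxy)
  have s2 := h2' x hxX hxy
  have t1 := h5 y hyX (Ne.symm hxy)
  have t2 := h5' x hxX hxy
  have hl' : 0 < l * a := mul_pos hl0 ha
  have hl'' : 0 < l * a' := mul_pos hl0 ha'
  have hm0 : 0 < m := by linarith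
  have hmb : 0 < m * b := mul_pos hm0 hb
  have hmb' : 0 < m * b' := mul_pos hm0 hb'
  rcases lt_trichotomy (f x - f y) 0 with h | h | h
  · -- `f x < f y`, so `g x > g y`
    have hg : 0 < g x - g y := by
      by_contra h'
      push Not at h'
      have : c * (f x - f y) + d * (g x - g y) ≤ 0 := by nlinarith
      nlinarith
    -- S-survivor x, T-survivor y
    have hord : m * b' * c < l * a' * d := by
      have e1 : m * b' * (g x - g y) < l * a' * (-(f x - f y)) := by nlinarith
      have e2 : c * (-(f x - f y)) < d * (g x - g y) := by nlinarith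
      have hf : 0 < -(f x - f y) := by linarith
      have e3 : (m * b' * (g x - g y)) * (c * (-(f x - f y))) <
          (l * a' * (-(f x - f y))) * (d * (g x - g y)) :=
        mul_lt_mul e1 e2.le (by positivity) (by positivity)
      have e4 : (m * b' * c) * ((g x - g y) * (-(f x - f y))) <
          (l * a' * d) * ((g x - g y) * (-(f x - f y))) := by
        calc _ = (m * b' * (g x - g y)) * (c * (-(f x - f y))) := by ring
          _ < _ := e3
          _ = _ := by ring
      exact lt_of_mul_lt_mul_right e4 (by positivity)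
    exact core_alg l m a' b' c d (f x) (g x) (f y) (g y) _ _ hl0 hl1 hm ha' hb' hc hd
      (by positivity) (by positivity) hord rfl (h6' y hyX) (h6' x hxX) rfl (h3 x hxX) (h3 y hyX)
  · -- equal
    have h1 : 0 < d * (g x - g y) := by
      have : f x = f y := by linarith
      rw [this] at s1; linarith
    have h2 : d' * (g x - g y) < 0 := by
      have : f x = f y := by linarith
      rw [this] at s2; linarith
    have h3 : 0 < g x - g y := (mul_pos_iff_of_pos_left hd).mp h1
    have h4 : 0 < d' * (g x - g y) := mul_pos hd' h3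
    linarith
  · have hg : g x - g y < 0 := by
      by_contra h'
      push Not at h'
      have : 0 ≤ c' * (f x - f y) + d' * (g x - g y) := by positivity
      nlinarith
    have hord : m * b * c' < l * a * d' := by
      have e1 : m * b * (-(g x - g y)) < l * a * (f x - f y) := by nlinarith
      have e2 : c' * (f x - f y) < d' * (-(g x - g y)) := by nlinarith
      have hf : 0 < -(g x - g y) := by linarith
      have e3 : (m * b * (-(g x - g y))) * (c' * (f x - f y)) <
          (l * a * (f x - f y)) * (d' * (-(g x - g y))) :=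
        mul_lt_mul e1 e2.le (by positivity) (by positivity)
      have e4 : (m * b * c') * ((-(g x - g y)) * (f x - f y)) <
          (l * a * d') * ((-(g x - g y)) * (f x - f y)) := by
        calc _ = (m * b * (-(g x - g y))) * (c' * (f x - f y)) := by ring
          _ < _ := e3
          _ = _ := by ring
      exact lt_of_mul_lt_mul_right e4 (by positivity)
    exact core_alg l m a b c' d' (f y) (g y) (f x) (g x) _ _ hl0 hl1 hm ha hb hc' hd'
      (by positivity) (by positivity) hord rfl (h6 x hxX) (h6 y hyX) rfl (h3' y hyX) (h3' x hxX)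

/-- a double survivor in the open quadrant is of axis type or of quadrant type -/
lemma Dd_class {α : Type*} {X : Set α} {f g : α → ℝ} {l m : ℝ} (hl0 : 0 < l) (hl1 : l < 1)
    (hm : 1 < m) {x : α} (h : Dd X f g l m x) (fx : 0 < f x) (gx : 0 < g x) :
    (∀ z ∈ X, z ≠ x → f z < f x) ∨ (∀ z ∈ X, z ≠ x → f x < f z) ∨
    (∀ z ∈ X, z ≠ x → g z < g x) ∨ (∀ z ∈ X, z ≠ x → g x < g z) ∨ Qd X f g l m x := by
  obtain ⟨hx, ⟨c, d, h1, h2, h3⟩, ⟨a, b, h4, h5, h6⟩⟩ := h
  have h3x := h3 x hx
  have h6x := h6 x hx
  have hm0 : 0 < m := by linarith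
  have hc : 0 < c := by
    by_contra h'
    push Not at h'
    have e1 : c * f x ≤ 0 := mul_nonpos_of_nonpos_of_nonneg h' fx.le
    have e2 : d * g x ≤ 0 := by nlinarith
    linarith
  have hb : 0 < b := by
    by_contra h'
    push Not at h'
    have e1 : b * g x ≤ 0 := mul_nonpos_of_nonpos_of_nonneg h' gx.le
    have e2 : a * f x ≤ 0 := by nlinarith
    nlinarith
  have key : ∀ (κ : ℝ) (F : α → ℝ), (∀ z ∈ X, z ≠ x → κ * F z < κ * F x) →
      (∀ z ∈ X, z ≠ x → F z < F x) ∨ (∀ z ∈ X, z ≠ x → F x < F z) := by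
    intro κ F hF
    rcases lt_trichotomy κ 0 with hκ | hκ | hκ
    · right
      intro z hz hzx
      have := hF z hz hzx
      by_contra h'
      push Not at h'
      nlinarith
    · left
      intro z hz hzx
      have := hF z hz hzx
      rw [hκ] at this
      simp at this
    · left
      intro z hz hzx
      have := hF z hz hzx
      exact lt_of_mul_lt_mul_left this hκ.le
  by_cases hd : d ≤ 0
  · rcases key (m * b * c - d * (l * a)) f (by
      intro z hz hzx
      have e1 := h2 z hz hzx
      have e2 := h5 z hz hzx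
      have hmb : 0 < m * b := mul_pos hm0 hb
      have e3 : m * b * (c * f z + d * g z) < m * b * (c * f x + d * g x) :=
        mul_lt_mul_of_pos_left e1 hmb
      have e4 : (-d) * (l * a * f z + m * b * g z) ≤ (-d) * (l * a * f x + m * b * g x) :=
        mul_le_mul_of_nonneg_left e2.le (by linarith)
      nlinarith) with h | h
    · exact Or.inl h
    · exact Or.inr (Or.inl h)
  · push Not at hd
    by_cases ha : a ≤ 0
    · rcases key (c * (m * b) - l * a * d) g (by
        intro z hz hzx
        have e1 := h2 z hz hzx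
        have e2 := h5 z hz hzx
        have e3 : c * (l * a * f z + m * b * g z) < c * (l * a * f x + m * b * g x) :=
          mul_lt_mul_of_pos_left e2 hc
        have e4 : (-(l * a)) * (c * f z + d * g z) ≤ (-(l * a)) * (c * f x + d * g x) :=
          mul_le_mul_of_nonneg_left e1.le (by nlinarith)
        nlinarith) with h | h
      · exact Or.inr (Or.inr (Or.inl h))
      · exact Or.inr (Or.inr (Or.inr (Or.inl h)))
    · push Not at ha
      exact Or.inr (Or.inr (Or.inr (Or.inr
        ⟨hx, fx, gx, ⟨c, d, hc, hd, h2, h3⟩, ⟨a, b, ha, hb, h5, h6⟩⟩)))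

/-- the sign of a Boolean -/
def sgb (b : Bool) : ℝ := if b then 1 else -1

/-- the eight codes -/
def code {α : Type*} (X : Set α) (f g : α → ℝ) (l m : ℝ) : Bool × Bool × Bool → Set α
  | (false, s, true) => {x | x ∈ X ∧ ∀ z ∈ X, z ≠ x → sgb s * f z < sgb s * f x}
  | (false, s, false) => {x | x ∈ X ∧ ∀ z ∈ X, z ≠ x → sgb s * g z < sgb s * g x}
  | (true, s, t) => {x | Qd X (fun z => sgb s * f z) (fun z => sgb t * g z) l m x}

lemma Dd_f_ne {α : Type*} {X : Set α} {f g : α → ℝ} {l m : ℝ} (hl0 : 0 < l) (hl1 : l < 1)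
    (hm : 1 < m) {x : α} (h : Dd X f g l m x) : f x ≠ 0 ∧ g x ≠ 0 := by
  obtain ⟨hx, ⟨c, d, h1, h2, h3⟩, ⟨a, b, h4, h5, h6⟩⟩ := h
  have h3x := h3 x hx
  have h6x := h6 x hx
  constructor
  · intro h0
    rw [h0] at h1 h3x
    nlinarith
  · intro h0
    rw [h0] at h4 h6x
    have e1 : 0 < a * f x := by
      by_contra h'
      push Not at h'
      nlinarith
    nlinarith

lemma Dd_cover {α : Type*} {X : Set α} {f g : α → ℝ} {l m : ℝ} (hl0 : 0 < l) (hl1 : l < 1)
    (hm : 1 < m) {x : α} (h : Dd X f g l m x) : ∃ i, x ∈ code X f g l m i := by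
  obtain ⟨hf, hg⟩ := Dd_f_ne hl0 hl1 hm h
  have hx := h.1
  have hcast : ∀ F : α → ℝ, (fun z => sgb true * F z) = F := by
    intro F; funext z; simp [sgb]
  have hcast' : ∀ F : α → ℝ, (fun z => sgb false * F z) = fun z => -F z := by
    intro F; funext z; simp [sgb]
  rcases lt_or_gt_of_ne hf with hf | hf
  · rcases lt_or_gt_of_ne hg with hg | hg
    · rcases Dd_class hl0 hl1 hm (Dd_neg_g (Dd_neg_f h)) (neg_pos.mpr hf) (neg_pos.mpr hg) with
        h1 | h1 | h1 | h1 | h1
      · exact ⟨(false, false, true), hx, fun z hz hzx => by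
          have := h1 z hz hzx; simp only [sgb]; norm_num at this ⊢; exact this⟩
      · exact ⟨(false, true, true), hx, fun z hz hzx => by
          have := h1 z hz hzx; simp only [sgb]; norm_num at this ⊢; exact this⟩
      · exact ⟨(false, false, false), hx, fun z hz hzx => by
          have := h1 z hz hzx; simp only [sgb]; norm_num at this ⊢; exact this⟩
      · exact ⟨(false, true, false), hx, fun z hz hzx => by
          have := h1 z hz hzx; simp only [sgb]; norm_num at this ⊢; exact this⟩
      · refine ⟨(true, false, false), ?_⟩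
        change Qd X (fun z => sgb false * f z) (fun z => sgb false * g z) l m x
        rw [hcast', hcast']; exact h1
    · rcases Dd_class hl0 hl1 hm (Dd_neg_f h) (neg_pos.mpr hf) hg with
        h1 | h1 | h1 | h1 | h1
      · exact ⟨(false, false, true), hx, fun z hz hzx => by
          have := h1 z hz hzx; simp only [sgb]; norm_num at this ⊢; exact this⟩
      · exact ⟨(false, true, true), hx, fun z hz hzx => by
          have := h1 z hz hzx; simp only [sgb]; norm_num at this ⊢; exact this⟩
      · exact ⟨(false, true, false), hx, fun z hz hzx => by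
          have := h1 z hz hzx; simp only [sgb]; norm_num at this ⊢; exact this⟩
      · exact ⟨(false, false, false), hx, fun z hz hzx => by
          have := h1 z hz hzx; simp only [sgb]; norm_num at this ⊢; exact this⟩
      · refine ⟨(true, false, true), ?_⟩
        change Qd X (fun z => sgb false * f z) (fun z => sgb true * g z) l m x
        rw [hcast', hcast]; exact h1
  · rcases lt_or_gt_of_ne hg with hg | hg
    · rcases Dd_class hl0 hl1 hm (Dd_neg_g h) hf (neg_pos.mpr hg) with
        h1 | h1 | h1 | h1 | h1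
      · exact ⟨(false, true, true), hx, fun z hz hzx => by
          have := h1 z hz hzx; simp only [sgb]; norm_num at this ⊢; exact this⟩
      · exact ⟨(false, false, true), hx, fun z hz hzx => by
          have := h1 z hz hzx; simp only [sgb]; norm_num at this ⊢; exact this⟩
      · exact ⟨(false, false, false), hx, fun z hz hzx => by
          have := h1 z hz hzx; simp only [sgb]; norm_num at this ⊢; exact this⟩
      · exact ⟨(false, true, false), hx, fun z hz hzx => by
          have := h1 z hz hzx; simp only [sgb]; norm_num at this ⊢; exact this⟩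
      · refine ⟨(true, true, false), ?_⟩
        change Qd X (fun z => sgb true * f z) (fun z => sgb false * g z) l m x
        rw [hcast, hcast']; exact h1
    · rcases Dd_class hl0 hl1 hm h hf hg with h1 | h1 | h1 | h1 | h1
      · exact ⟨(false, true, true), hx, fun z hz hzx => by
          have := h1 z hz hzx; simp only [sgb]; norm_num at this ⊢; exact this⟩
      · exact ⟨(false, false, true), hx, fun z hz hzx => by
          have := h1 z hz hzx; simp only [sgb]; norm_num at this ⊢; exact this⟩
      · exact ⟨(false, true, false), hx, fun z hz hzx => by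
          have := h1 z hz hzx; simp only [sgb]; norm_num at this ⊢; exact this⟩
      · exact ⟨(false, false, false), hx, fun z hz hzx => by
          have := h1 z hz hzx; simp only [sgb]; norm_num at this ⊢; exact this⟩
      · refine ⟨(true, true, true), ?_⟩
        change Qd X (fun z => sgb true * f z) (fun z => sgb true * g z) l m x
        rw [hcast, hcast]; exact h1

lemma encard_le_one' {α : Type*} (E : Set α) (h : ∀ x ∈ E, ∀ y ∈ E, x = y) : E.encard ≤ 1 :=
  Set.encard_le_one_iff.mpr fun x y hx hy => h x hx y hy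

lemma code_small {α : Type*} {X : Set α} {f g : α → ℝ} {l m : ℝ} (hl0 : 0 < l) (hl1 : l < 1)
    (hm : 1 < m) (i : Bool × Bool × Bool) : (code X f g l m i).encard ≤ 1 := by
  apply encard_le_one'
  obtain ⟨k, s, t⟩ := i
  intro x hx y hy
  cases k
  · cases t
    · by_contra hxy
      have h1 := hx.2 y hy.1 (Ne.symm hxy)
      have h2 := hy.2 x hx.1 hxy
      linarith
    · by_contra hxy
      have h1 := hx.2 y hy.1 (Ne.symm hxy)
      have h2 := hy.2 x hx.1 hxy
      linarith
  · have hx' : Qd X (fun z => sgb s * f z) (fun z => sgb t * g z) l m x := hx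
    have hy' : Qd X (fun z => sgb s * f z) (fun z => sgb t * g z) l m y := hy
    exact Qd_unique hl0 hl1 hm hx' hy'

/-- at most eight double survivors -/
lemma Dd_count {α : Type*} (X : Set α) (f g : α → ℝ) (l m : ℝ) (hl0 : 0 < l) (hl1 : l < 1)
    (hm : 1 < m) : {x | Dd X f g l m x}.encard ≤ 8 := by
  have h := encard_le_of_cover {x | Dd X f g l m x} (code X f g l m)
    (fun x hx => Dd_cover hl0 hl1 hm hx) 1
    (fun i => (Set.encard_le_encard Set.inter_subset_right).trans (by
      simpa using code_small hl0 hl1 hm i))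
  simpa using h

end Pool.Oligo
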