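import Pool.Agent.Work.MP_eceddd_h11.Basic

/-!
# MP_eceddd_an: removal of the singular matrices (helper11)
-/

set_option autoImplicit false

open scoped Matrix Pointwise

namespace Pool.Oligo

lemma states_smul_inv (S : Finset M2) (a : V2) (c : ℝ) (k : ℕ) (y : V2)
    (hy : y ∈ states S (c • a) k) : ∃ y' ∈ states S a k, y = c • y' := by
  induction k generalizing y with
  | zero =>
    have : y = c • a := hy
    exact ⟨a, rfl, this⟩
  | succ k ih =>
    obtain ⟨T, hT, x, hx, rfl⟩ := hy
    obtain ⟨x', hx', rfl⟩ := ih x hx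
    exact ⟨T *ᵥ x', ⟨T, hT, x', hx', rfl⟩, by rw [Matrix.mulVec_smul]⟩

lemma states_mono {S0 S : Finset M2} (h : S0 ⊆ S) (a : V2) (k : ℕ) :
    states S0 a k ⊆ states S a k := by
  induction k with
  | zero => exact fun y hy => hy
  | succ k ih =>
    rintro y ⟨T, hT, x, hx, rfl⟩
    exact ⟨T, h hT, x, ih hx, rfl⟩

lemma states_comp {S0 S : Finset M2} (h : S0 ⊆ S) (a : V2) (i : ℕ) (x : V2)
    (hx : x ∈ states S a i) (r : M2) (hr : r ∈ S) (j : ℕ) (y : V2)
    (hy : y ∈ states S0 (r *ᵥ x) j) : y ∈ states S a (i + 1 + j) := by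
  induction j generalizing y with
  | zero =>
    have : y = r *ᵥ x := hy
    exact ⟨r, hr, x, hx, this⟩
  | succ j ih =>
    obtain ⟨T, hT, z, hz, rfl⟩ := hy
    exact ⟨T, h hT, z, ih z hz, rfl⟩

lemma states_decomp (S : Finset M2) (a : V2) (k : ℕ) (y : V2) (hy : y ∈ states S a k) :
    y ∈ states (S.filter fun T => T.det ≠ 0) a k ∨
      ∃ j i : ℕ, i + 1 + j = k ∧ ∃ r ∈ S, r.det = 0 ∧ ∃ x ∈ states S a i,
        y ∈ states (S.filter fun T => T.det ≠ 0) (r *ᵥ x) j := by
  induction k generalizing y with
  | zero => exact Or.inl hy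
  | succ k ih =>
    obtain ⟨T, hT, x, hx, rfl⟩ := hy
    by_cases hd : T.det = 0
    · exact Or.inr ⟨0, k, rfl, T, hT, hd, x, hx, rfl⟩
    · have hT0 : T ∈ S.filter fun T => T.det ≠ 0 := Finset.mem_filter.mpr ⟨hT, hd⟩
      rcases ih x hx with h | ⟨j, i, hij, r, hr, hrd, z, hz, hxz⟩
      · exact Or.inl ⟨T, hT0, x, h, rfl⟩
      · exact Or.inr ⟨j + 1, i, by omega, r, hr, hrd, z, hz, T, hT0, x, hxz, rfl⟩

lemma rank_one (r : M2) (h : r.det = 0) : ∃ (u : V2) (p q : ℝ), ∀ x : V2,
    r *ᵥ x = (p * x 0 + q * x 1) • u := by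
  rw [Matrix.det_fin_two] at h
  have e : ∀ (x : V2) (i : Fin 2), (r *ᵥ x) i = r i 0 * x 0 + r i 1 * x 1 := by
    intro x i
    simp [Matrix.mulVec, dotProduct, Fin.sum_univ_two]
  by_cases h0 : r 0 0 = 0
  · by_cases h1 : r 1 0 = 0
    · refine ⟨fun i => r i 1, 0, 1, fun x => ?_⟩
      funext i
      rw [e]
      fin_cases i
      · simp [h0, mul_comm]
      · simp [h1, mul_comm]
    · refine ⟨fun i => r i 0, 1, r 1 1 / r 1 0, fun x => ?_⟩
      have h2 : r 0 1 = 0 := by
        rw [h0, zero_mul, zero_sub, neg_eq_zero] at h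
        exact (mul_eq_zero.mp h).resolve_right h1
      funext i
      rw [e]
      fin_cases i
      · simp [h0, h2]
      · simp only [Fin.mk_one, Pi.smul_apply, smul_eq_mul]
        field_simp
  · refine ⟨fun i => r i 0, 1, r 0 1 / r 0 0, fun x => ?_⟩
    funext i
    rw [e]
    fin_cases i
    · simp only [Fin.zero_eta, Pi.smul_apply, smul_eq_mul]
      field_simp
    · simp only [Fin.mk_one, Pi.smul_apply, smul_eq_mul]
      field_simp
      linear_combination x 1 * h

lemma smul_hull (S0 S : Finset M2) (a u : V2) (c : ℝ) (j k : ℕ)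
    (h : ∀ y ∈ states S0 u j, c • y ∈ states S a k) (y : V2)
    (hy : y ∈ convexHull ℝ (states S0 u j)) : c • y ∈ convexHull ℝ (states S a k) := by
  have h1 : c • convexHull ℝ (states S0 u j) = convexHull ℝ (c • states S0 u j) :=
    (convexHull_smul c _).symm
  have h2 : c • y ∈ c • convexHull ℝ (states S0 u j) := Set.smul_mem_smul_set hy
  rw [h1] at h2
  refine convexHull_mono ?_ h2
  rintro z ⟨y', hy', rfl⟩
  exact h y' hy'

/-- the vertices produced by a word whose last singular letter is `r` -/
lemma piece_bound (S : Finset M2) (a : V2) (i j : ℕ) (r : M2) (hr : r ∈ S) (hrd : r.det = 0)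
    (N : ℕ) (hN : ∀ u : V2, (verts (S.filter fun T => T.det ≠ 0) u j).encard ≤ N) :
    (verts S a (i + 1 + j) ∩ {y | ∃ x ∈ states S a i,
      y ∈ states (S.filter fun T => T.det ≠ 0) (r *ᵥ x) j}).encard ≤ (1 + 2 * N : ℕ) := by
  obtain ⟨u, p, q, hu⟩ := rank_one r hrd
  set S0 := S.filter fun T => T.det ≠ 0 with hS0
  have hsub : S0 ⊆ S := Finset.filter_subset _ _
  rcases (states S a i).eq_empty_or_nonempty with hemp | hne
  · have : (verts S a (i + 1 + j) ∩ {y | ∃ x ∈ states S a i,
      y ∈ states S0 (r *ᵥ x) j}) = ∅ := by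
      rw [hemp]; ext y; simp
    rw [this]; simp
  · have hfin := states_finite S a i
    obtain ⟨x1, hx1, hmin⟩ := Set.exists_min_image (states S a i)
      (fun x => p * x 0 + q * x 1) hfin hne
    obtain ⟨x2, hx2, hmax⟩ := Set.exists_max_image (states S a i)
      (fun x => p * x 0 + q * x 1) hfin hne
    set s1 := p * x1 0 + q * x1 1 with hs1
    set s2 := p * x2 0 + q * x2 1 with hs2
    -- all products are states
    have hst : ∀ x ∈ states S a i, ∀ y ∈ states S0 u j,
        (p * x 0 + q * x 1) • y ∈ states S a (i + 1 + j) := by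
      intro x hx y hy
      refine states_comp hsub a i x hx r hr j _ ?_
      rw [hu]
      exact states_smul S0 u _ j y hy
    have hcov : (verts S a (i + 1 + j) ∩ {y | ∃ x ∈ states S a i,
        y ∈ states S0 (r *ᵥ x) j}) ⊆
        {0} ∪ ((fun y => s1 • y) '' verts S0 u j ∪ (fun y => s2 • y) '' verts S0 u j) := by
      rintro y ⟨hy, x, hx, hyx⟩
      rw [hu] at hyx
      obtain ⟨y', hy', hyy⟩ := states_smul_inv S0 u _ j y hyx
      set s := p * x 0 + q * x 1 with hs
      by_cases hy0 : y = 0
      · left; exact hy0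
      · right
        have hs0 : s ≠ 0 := fun h => hy0 (by rw [hyy, h, zero_smul])
        have hy'0 : y' ≠ 0 := fun h => hy0 (by rw [hyy, h, smul_zero])
        have hext : y' ∈ verts S0 u j := by
          refine ⟨subset_convexHull ℝ _ hy', ?_⟩
          intro z1 hz1 z2 hz2 hz
          have g1 := smul_hull S0 S a u s j (i + 1 + j) (hst x hx) z1 hz1
          have g2 := smul_hull S0 S a u s j (i + 1 + j) (hst x hx) z2 hz2
          have g3 : y ∈ openSegment ℝ (s • z1) (s • z2) := by
            obtain ⟨b1, b2, hb1, hb2, hb, hz'⟩ := hz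
            refine ⟨b1, b2, hb1, hb2, hb, ?_⟩
            rw [hyy, ← hz', smul_add, smul_comm b1 s, smul_comm b2 s]
          have g4 := hy.2 g1 g2 g3
          rw [hyy] at g4
          exact smul_right_injective V2 hs0 g4
        have hle1 : s1 ≤ s := hmin x hx
        have hle2 : s ≤ s2 := hmax x hx
        rcases eq_or_lt_of_le hle1 with h1 | h1
        · left
          exact ⟨y', hext, by rw [hyy, h1]⟩
        · rcases eq_or_lt_of_le hle2 with h2 | h2
          · right
            exact ⟨y', hext, by rw [hyy, h2]⟩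
          · exfalso
            have hd : 0 < s2 - s1 := by linarith
            have m1 := hst x1 hx1 y' hy'
            have m2 := hst x2 hx2 y' hy'
            refine not_ext_mid (subset_convexHull ℝ _ m1) (subset_convexHull ℝ _ m2)
              ((s - s1) / (s2 - s1)) (div_pos (by linarith) hd)
              ((div_lt_one hd).mpr (by linarith)) ?_ ?_ hy
            · intro he
              have : (s1 - s2) • y' = 0 := by
                rw [sub_smul]; exact sub_eq_zero.mpr he
              rcases smul_eq_zero.mp this with h | h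
              · linarith
              · exact hy'0 h
            · have e1 : (s - s1) / (s2 - s1) * (s2 - s1) = s - s1 := by field_simp
              rw [hyy, smul_smul, smul_smul, ← add_smul]
              congr 1
              linear_combination -e1
    refine (Set.encard_le_encard hcov).trans ?_
    refine (Set.encard_union_le _ _).trans ?_
    have e1 : (((1 + 2 * N : ℕ)) : ℕ∞) = 1 + ((N : ℕ∞) + N) := by push_cast; ring
    rw [e1, Set.encard_singleton]
    refine add_le_add le_rfl ((Set.encard_union_le _ _).trans ?_)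
    exact add_le_add ((Set.encard_image_le _ _).trans (hN u))
      ((Set.encard_image_le _ _).trans (hN u))

/-- **Reduction.** The singular matrices of `S` may be deleted. -/
theorem reduction (S : Finset M2) (h : PolyVertex (S.filter fun T => T.det ≠ 0)) :
    PolyVertex S := by
  classical
  obtain ⟨C, d, hC, hd, hb⟩ := h
  set S0 := S.filter fun T => T.det ≠ 0 with hS0
  have hsub : S0 ⊆ S := Finset.filter_subset _ _
  have hb' : ∀ j : ℕ, ∀ u : V2, (verts S0 u j).encard ≤ (C * (j + 1) ^ d : ℕ) := by
    intro j u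
    rcases Nat.eq_zero_or_pos j with rfl | hj
    · have h1 : (verts S0 u 0).encard ≤ 1 := by
        refine (Set.encard_le_encard (verts_subset S0 u 0)).trans ?_
        change ({u} : Set V2).encard ≤ 1
        rw [Set.encard_singleton]
      refine h1.trans ?_
      have : 1 ≤ C * (0 + 1) ^ d := by rw [zero_add, one_pow, mul_one]; exact hC
      exact_mod_cast this
    · refine (hb j hj u).trans ?_
      have : C * j ^ d ≤ C * (j + 1) ^ d :=
        Nat.mul_le_mul_left _ (Nat.pow_le_pow_left (Nat.le_succ j) d)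
      exact_mod_cast this
  refine ⟨(S.card + 1) * (2 * C * 2 ^ d + 1), d + 1, by positivity, by omega, ?_⟩
  intro k hk a
  -- the cover
  let L : Option (Fin k × S) → Set V2 := fun o =>
    match o with
    | none => states S0 a k
    | some (j, r) => {y | (r : M2).det = 0 ∧ ∃ x ∈ states S a (k - 1 - j),
        y ∈ states S0 ((r : M2) *ᵥ x) j}
  have hcov : ∀ y ∈ verts S a k, ∃ o, y ∈ L o := by
    intro y hy
    rcases states_decomp S a k y (verts_subset S a k hy) with h1 | ⟨j, i, hij, r, hr, hrd, x, hx, hyx⟩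
    · exact ⟨none, h1⟩
    · have hj : j < k := by omega
      refine ⟨some (⟨j, hj⟩, ⟨r, hr⟩), hrd, x, ?_, hyx⟩
      have : k - 1 - j = i := by omega
      change x ∈ states S a (k - 1 - j)
      rw [this]; exact hx
  have hL : ∀ o, (verts S a k ∩ L o).encard ≤ (1 + 2 * (C * (k + 1) ^ d) : ℕ) := by
    rintro (_ | ⟨j, r⟩)
    · have h1 : verts S a k ∩ L none ⊆ verts S0 a k := by
        rintro y ⟨hy, hy0⟩
        refine ⟨subset_convexHull ℝ _ hy0, ?_⟩
        intro z1 hz1 z2 hz2 hz
        exact hy.2 (convexHull_mono (states_mono hsub a k) hz1)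
          (convexHull_mono (states_mono hsub a k) hz2) hz
      refine (Set.encard_le_encard h1).trans ((hb' k a).trans ?_)
      have : C * (k + 1) ^ d ≤ 1 + 2 * (C * (k + 1) ^ d) := by omega
      exact_mod_cast this
    · by_cases hrd : (r : M2).det = 0
      · have hj := j.2
        have hk1 : (k - 1 - j) + 1 + (j : ℕ) = k := by omega
        have hjk : C * ((j : ℕ) + 1) ^ d ≤ C * (k + 1) ^ d :=
          Nat.mul_le_mul_left _ (Nat.pow_le_pow_left (by omega) d)
        have h1 := piece_bound S a (k - 1 - j) j r r.2 hrd (C * (k + 1) ^ d)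
          (fun u => (hb' j u).trans (by exact_mod_cast hjk))
        rw [hk1] at h1
        refine (Set.encard_le_encard ?_).trans h1
        rintro y ⟨hy, _, hy2⟩
        exact ⟨hy, hy2⟩
      · have : verts S a k ∩ L (some (j, r)) = ∅ := by
          ext y
          constructor
          · rintro ⟨_, h1, _⟩; exact absurd h1 hrd
          · intro h; exact absurd h (Set.notMem_empty y)
        rw [this]; simp
  have h1 := encard_le_of_cover (verts S a k) L hcov _ hL
  refine h1.trans ?_
  have h2 : Fintype.card (Option (Fin k × S)) = k * S.card + 1 := by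
    rw [Fintype.card_option, Fintype.card_prod, Fintype.card_fin, Fintype.card_coe]
  rw [h2]
  have h3 : (k + 1) ^ d ≤ 2 ^ d * k ^ d := by
    rw [← mul_pow]
    exact Nat.pow_le_pow_left (by omega) d
  have h4 : 1 ≤ k ^ d := Nat.one_le_pow _ _ hk
  have h5 : k * S.card + 1 ≤ (S.card + 1) * k := by nlinarith
  have h6 : 1 + 2 * (C * (k + 1) ^ d) ≤ (2 * C * 2 ^ d + 1) * k ^ d := by nlinarith
  have h7 : (k * S.card + 1) * (1 + 2 * (C * (k + 1) ^ d)) ≤
      (S.card + 1) * (2 * C * 2 ^ d + 1) * k ^ (d + 1) := by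
    calc (k * S.card + 1) * (1 + 2 * (C * (k + 1) ^ d))
        ≤ ((S.card + 1) * k) * ((2 * C * 2 ^ d + 1) * k ^ d) := Nat.mul_le_mul h5 h6
      _ = _ := by ring
  exact_mod_cast h7

end Pool.Oligo
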