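import Pool.Agent.Work.MP_eceddd_h11.Pair

/-!
# MP_eceddd_an: pairs of matrices, separated case (helper11)
-/

set_option autoImplicit false

open scoped Matrix

namespace Pool.Oligo

/-- `x` survives under `S` in competition with `U` -/
def R1 (S U : M2) (X : Set V2) (x : V2) : Prop :=
  ∃ p : V2, (∀ z ∈ X, z ≠ x → p ⬝ᵥ (S *ᵥ z) < p ⬝ᵥ (S *ᵥ x)) ∧
    ∀ z ∈ X, p ⬝ᵥ (U *ᵥ z) ≤ p ⬝ᵥ (S *ᵥ x)

/-- the double survivors -/
def Dm (S U : M2) (X : Set V2) : Set V2 :=
  {x | x ∈ X ∧ S *ᵥ x ≠ U *ᵥ x ∧ R1 S U X x ∧ R1 U S X x}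

/-- the eigenvectors of the pencil -/
lemma pencil (S U : M2) (h1 : 0 < S.det * U.det) (h2 : S.det * (S - U).det < 0) :
    ∃ (l m : ℝ) (p q : V2), 0 < l ∧ l < 1 ∧ 1 < m ∧ p 0 * q 1 - p 1 * q 0 ≠ 0 ∧
      p ᵥ* U = l • (p ᵥ* S) ∧ q ᵥ* U = m • (q ᵥ* S) := by
  have hD : S.det ≠ 0 := fun h => by rw [h, zero_mul] at h1; exact lt_irrefl _ h1
  set D := S.det with hDd
  set τ := (S 0 0 * U 1 1 + S 1 1 * U 0 0 - S 0 1 * U 1 0 - S 1 0 * U 0 1) / D with hτ
  set ρ := U.det / D with hρ
  have hρ0 : 0 < ρ := by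
    rw [hρ]
    have : U.det / D = (D * U.det) / (D * D) := by field_simp
    rw [this]
    exact div_pos h1 (mul_self_pos.mpr hD)
  have hdet : ∀ t : ℝ, (t • S - U).det = D * (t ^ 2 - τ * t + ρ) := by
    intro t
    have e1 : D * τ = S 0 0 * U 1 1 + S 1 1 * U 0 0 - S 0 1 * U 1 0 - S 1 0 * U 0 1 := by
      rw [hτ]; field_simp
    have e2 : D * ρ = U.det := by rw [hρ]; field_simp
    have e3 : D * (t ^ 2 - τ * t + ρ) = D * t ^ 2 - (D * τ) * t + D * ρ := by ring
    rw [e3, e1, e2, hDd, Matrix.det_fin_two, Matrix.det_fin_two, Matrix.det_fin_two]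
    simp only [Matrix.sub_apply, Matrix.smul_apply, smul_eq_mul]
    ring
  have hone : 1 - τ + ρ < 0 := by
    have h3 := hdet 1
    rw [one_smul] at h3
    rw [h3] at h2
    have h4 : D * (D * (1 ^ 2 - τ * 1 + ρ)) = (D * D) * (1 - τ + ρ) := by ring
    rw [h4] at h2
    by_contra h'
    push Not at h'
    have := mul_nonneg (mul_self_nonneg D) h'
    linarith
  have hτ1 : 1 + ρ < τ := by linarith
  have hΔ : 0 < τ ^ 2 - 4 * ρ := by nlinarith [sq_nonneg (1 - ρ)]
  set r := Real.sqrt (τ ^ 2 - 4 * ρ) with hr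
  have hr2 : r ^ 2 = τ ^ 2 - 4 * ρ := Real.sq_sqrt hΔ.le
  have hr0 : 0 < r := Real.sqrt_pos.mpr hΔ
  set l := (τ - r) / 2 with hl
  set m := (τ + r) / 2 with hm
  have hlr : l ^ 2 - τ * l + ρ = 0 := by rw [hl]; nlinarith
  have hmr : m ^ 2 - τ * m + ρ = 0 := by rw [hm]; nlinarith
  have hlm : l < m := by rw [hl, hm]; linarith
  have hl0 : 0 < l := by
    rw [hl]
    have : r < τ := by
      apply lt_of_pow_lt_pow_left₀ 2 (by linarith)
      rw [hr2]; linarith
    linarith
  have hprod : (1 - l) * (1 - m) = 1 - τ + ρ := by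
    rw [hl, hm]; nlinarith
  have hl1 : l < 1 := by
    by_contra h'
    push Not at h'
    have : 0 ≤ (1 - l) * (1 - m) := by nlinarith
    linarith
  have hm1 : 1 < m := by
    by_contra h'
    push Not at h'
    have : 0 ≤ (1 - l) * (1 - m) := by nlinarith
    linarith
  obtain ⟨p, hp, hpU⟩ := Matrix.exists_vecMul_eq_zero_iff.mpr
    (show (l • S - U).det = 0 by rw [hdet, hlr, mul_zero])
  obtain ⟨q, hq, hqU⟩ := Matrix.exists_vecMul_eq_zero_iff.mpr
    (show (m • S - U).det = 0 by rw [hdet, hmr, mul_zero])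
  have ep : p ᵥ* U = l • (p ᵥ* S) := by
    rw [Matrix.vecMul_sub, Matrix.vecMul_smul, sub_eq_zero] at hpU
    exact hpU.symm
  have eq : q ᵥ* U = m • (q ᵥ* S) := by
    rw [Matrix.vecMul_sub, Matrix.vecMul_smul, sub_eq_zero] at hqU
    exact hqU.symm
  refine ⟨l, m, p, q, hl0, hl1, hm1, ?_, ep, eq⟩
  intro hpq
  -- `q = r p`
  obtain ⟨s, hs⟩ : ∃ s : ℝ, q = s • p := by
    by_cases h0 : p 0 = 0
    · have h1' : p 1 ≠ 0 := by
        intro h1'
        apply hp
        funext i
        fin_cases i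
        · exact h0
        · exact h1'
      refine ⟨q 1 / p 1, ?_⟩
      funext i
      fin_cases i
      · have : p 1 * q 0 = 0 := by rw [h0, zero_mul, zero_sub] at hpq; linarith
        have : q 0 = 0 := (mul_eq_zero.mp this).resolve_left h1'
        simp [this, h0]
      · simp only [Pi.smul_apply, smul_eq_mul, Fin.mk_one]
        field_simp
    · refine ⟨q 0 / p 0, ?_⟩
      funext i
      fin_cases i
      · simp only [Pi.smul_apply, smul_eq_mul, Fin.zero_eta]
        field_simp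
      · simp only [Pi.smul_apply, smul_eq_mul, Fin.mk_one]
        field_simp
        linarith
  have hs0 : s ≠ 0 := by
    intro h
    apply hq
    rw [hs, h, zero_smul]
  rw [hs, Matrix.smul_vecMul, Matrix.smul_vecMul, ep, smul_smul, smul_smul] at eq
  have e5 : (s * l - m * s) • (p ᵥ* S) = 0 := by
    rw [sub_smul, eq, sub_self]
  have e6 : s * l - m * s ≠ 0 := by
    have : s * l - m * s = s * (l - m) := by ring
    rw [this]
    exact mul_ne_zero hs0 (by linarith)
  have e7 := (smul_eq_zero.mp e5).resolve_left e6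
  have := Matrix.exists_vecMul_eq_zero_iff.mp ⟨p, hp, e7⟩
  exact hD this

lemma dot_vm (p : V2) (S : M2) (z : V2) : p ⬝ᵥ (S *ᵥ z) = (p ᵥ* S) ⬝ᵥ z :=
  Matrix.dotProduct_mulVec p S z

/-- the hyperbolic case -/
lemma Dm_hyp (S U : M2) (X : Set V2) (h1 : 0 < S.det * U.det) (h2 : S.det * (S - U).det < 0)
    (h0 : (0 : V2) ∈ X) : (Dm S U X).encard ≤ 8 := by
  obtain ⟨l, m, p, q, hl0, hl1, hm, hW, hp, hq⟩ := pencil S U h1 h2
  set f : V2 → ℝ := fun z => p ⬝ᵥ (S *ᵥ z) with hf
  set g : V2 → ℝ := fun z => q ⬝ᵥ (S *ᵥ z) with hg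
  set W := p 0 * q 1 - p 1 * q 0 with hWd
  have hdec : ∀ v : V2, ∃ c d : ℝ, (∀ z, v ⬝ᵥ (S *ᵥ z) = c * f z + d * g z) ∧
      ∀ z, v ⬝ᵥ (U *ᵥ z) = l * c * f z + m * d * g z := by
    intro v
    refine ⟨(v 0 * q 1 - v 1 * q 0) / W, (p 0 * v 1 - p 1 * v 0) / W, ?_, ?_⟩
    · intro z
      have hv : v = ((v 0 * q 1 - v 1 * q 0) / W) • p + ((p 0 * v 1 - p 1 * v 0) / W) • q := by
        funext i
        fin_cases i
        · simp only [Pi.add_apply, Pi.smul_apply, smul_eq_mul, Fin.zero_eta]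
          field_simp
          rw [hWd]; ring
        · simp only [Pi.add_apply, Pi.smul_apply, smul_eq_mul, Fin.mk_one]
          field_simp
          rw [hWd]; ring
      conv_lhs => rw [hv]
      rw [add_dotProduct, smul_dotProduct, smul_dotProduct]
      rfl
    · intro z
      have hv : v = ((v 0 * q 1 - v 1 * q 0) / W) • p + ((p 0 * v 1 - p 1 * v 0) / W) • q := by
        funext i
        fin_cases i
        · simp only [Pi.add_apply, Pi.smul_apply, smul_eq_mul, Fin.zero_eta]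
          field_simp
          rw [hWd]; ring
        · simp only [Pi.add_apply, Pi.smul_apply, smul_eq_mul, Fin.mk_one]
          field_simp
          rw [hWd]; ring
      conv_lhs => rw [hv]
      rw [add_dotProduct, smul_dotProduct, smul_dotProduct, dot_vm p U, dot_vm q U, hp, hq,
        smul_dotProduct, smul_dotProduct, ← dot_vm, ← dot_vm]
      simp only [smul_eq_mul, hf, hg]
      ring
  refine (Set.encard_le_encard ?_).trans (Dd_count X f g l m hl0 hl1 hm)
  rintro x ⟨hxX, hne, ⟨v, hv1, hv2⟩, ⟨w, hw1, hw2⟩⟩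
  have hx0 : (0 : V2) ≠ x := by
    intro h
    apply hne
    rw [← h, Matrix.mulVec_zero, Matrix.mulVec_zero]
  obtain ⟨c, d, hc1, hc2⟩ := hdec v
  obtain ⟨a, b, ha1, ha2⟩ := hdec w
  refine ⟨hxX, ⟨c, d, ?_, ?_, ?_⟩, ⟨a, b, ?_, ?_, ?_⟩⟩
  · have := hv1 0 h0 hx0
    rw [Matrix.mulVec_zero, dotProduct_zero, hc1] at this
    exact this
  · intro z hz hzx
    have := hv1 z hz hzx
    rwa [hc1, hc1] at this
  · intro z hz
    have := hv2 z hz
    rwa [hc1, hc2] at this
  · have := hw1 0 h0 hx0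
    rw [Matrix.mulVec_zero, dotProduct_zero, ha2] at this
    exact this
  · intro z hz hzx
    have := hw1 z hz hzx
    rwa [ha2, ha2] at this
  · intro z hz
    have := hw2 z hz
    rwa [ha1, ha2] at this

/-- the proportional case -/
lemma Dm_smul (S U : M2) (X : Set V2) (r : ℝ) (hr : 0 < r) (hU : U = r • S)
    (h0 : (0 : V2) ∈ X) : Dm S U X = ∅ := by
  rw [Set.eq_empty_iff_forall_notMem]
  rintro x ⟨hxX, hne, ⟨v, hv1, hv2⟩, ⟨w, hw1, hw2⟩⟩
  have hx0 : (0 : V2) ≠ x := by
    intro h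
    apply hne
    rw [← h, Matrix.mulVec_zero, Matrix.mulVec_zero]
  have e : ∀ (v z : V2), v ⬝ᵥ (U *ᵥ z) = r * (v ⬝ᵥ (S *ᵥ z)) := by
    intro v z
    rw [hU, Matrix.smul_mulVec, dotProduct_smul, smul_eq_mul]
  have k1 := hv1 0 h0 hx0
  rw [Matrix.mulVec_zero, dotProduct_zero] at k1
  have k2 := hv2 x hxX
  rw [e] at k2
  have k3 := hw1 0 h0 hx0
  rw [Matrix.mulVec_zero, dotProduct_zero, e] at k3
  have k4 := hw2 x hxX
  rw [e] at k4
  have k5 : 0 < w ⬝ᵥ (S *ᵥ x) := (mul_pos_iff_of_pos_left hr).mp k3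
  have r1 : r ≤ 1 := by
    by_contra h'
    push Not at h'
    nlinarith
  have r2 : 1 ≤ r := by
    by_contra h'
    push Not at h'
    nlinarith
  apply hne
  rw [hU, le_antisymm r1 r2, one_smul]

/-- the case of a singular difference -/
lemma Dm_sing (S U : M2) (X : Set V2) (h1 : 0 < S.det * U.det) (h2 : (S - U).det = 0) :
    (Dm S U X).encard ≤ 2 := by
  have hD : S.det ≠ 0 := fun h => by rw [h, zero_mul] at h1; exact lt_irrefl _ h1
  have h2' : (U - S).det = 0 := by
    have : U - S = -(S - U) := by abel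
    rw [this, Matrix.det_neg, h2, mul_zero]
  obtain ⟨w, v0, v1, hw⟩ := rank_one (U - S) h2'
  have hU : ∀ z, U *ᵥ z = S *ᵥ z + (v0 * z 0 + v1 * z 1) • w := by
    intro z
    have := hw z
    rw [Matrix.sub_mulVec] at this
    rw [← this]; abel
  set u : V2 := S⁻¹ *ᵥ w with hu
  have hSu : S *ᵥ u = w := by
    rw [hu, Matrix.mulVec_mulVec, Matrix.mul_nonsing_inv _ (isUnit_iff_ne_zero.mpr hD),
      Matrix.one_mulVec]
  have hUu : U *ᵥ u = (1 + (v0 * u 0 + v1 * u 1)) • w := by
    rw [hU, hSu]; module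
  -- the entries of `U`
  have hent : ∀ i, U i 0 = S i 0 + w i * v0 ∧ U i 1 = S i 1 + w i * v1 := by
    intro i
    have e0 := congrFun (hU (Pi.single 0 1)) i
    have e1 := congrFun (hU (Pi.single 1 1)) i
    constructor
    · simp [Matrix.mulVec, dotProduct, Fin.sum_univ_two] at e0
      rw [e0]; ring
    · simp [Matrix.mulVec, dotProduct, Fin.sum_univ_two] at e1
      rw [e1]; ring
  have hwe : ∀ i, w i = S i 0 * u 0 + S i 1 * u 1 := by
    intro i
    have := congrFun hSu i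
    simp only [Matrix.mulVec, dotProduct, Fin.sum_univ_two] at this
    exact this.symm
  have hdetU : U.det = S.det * (1 + (v0 * u 0 + v1 * u 1)) := by
    rw [Matrix.det_fin_two, Matrix.det_fin_two, (hent 0).1, (hent 0).2, (hent 1).1, (hent 1).2,
      hwe 0, hwe 1]
    ring
  have hpos : 0 < 1 + (v0 * u 0 + v1 * u 1) := by
    rw [hdetU] at h1
    have : S.det * (S.det * (1 + (v0 * u 0 + v1 * u 1))) =
        (S.det * S.det) * (1 + (v0 * u 0 + v1 * u 1)) := by ring
    rw [this] at h1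
    exact (mul_pos_iff_of_pos_left (mul_self_pos.mpr hD)).mp h1
  set f : V2 → ℝ := fun z => u 1 * z 0 - u 0 * z 1 with hf
  have hcov : ∀ x ∈ Dm S U X, ∃ s : Bool,
      x ∈ {x | x ∈ X ∧ ∀ z ∈ X, z ≠ x → sgb s * f z < sgb s * f x} := by
    rintro x ⟨hxX, hne, ⟨p, hp1, hp2⟩, ⟨q, hq1, hq2⟩⟩
    have hu0 : ¬ (u 0 = 0 ∧ u 1 = 0) := by
      rintro ⟨h, h'⟩
      apply hne
      rw [hU x]
      have : w = 0 := by
        funext i
        rw [hwe i, h, h']; simp
      rw [this, smul_zero, add_zero]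
    -- a strictly maximal multiple of `f`
    have key : ∀ n : V2, n 0 * u 0 + n 1 * u 1 = 0 → (∀ z ∈ X, z ≠ x → n ⬝ᵥ z < n ⬝ᵥ x) →
        ∃ s : Bool, x ∈ {x | x ∈ X ∧ ∀ z ∈ X, z ≠ x → sgb s * f z < sgb s * f x} := by
      intro n hn hmax
      obtain ⟨κ, hκ0, hκ1⟩ : ∃ κ : ℝ, n 0 = κ * u 1 ∧ n 1 = -(κ * u 0) := by
        by_cases h : u 0 = 0
        · have h' : u 1 ≠ 0 := fun h' => hu0 ⟨h, h'⟩
          refine ⟨n 0 / u 1, by field_simp, ?_⟩
          rw [h, mul_zero, zero_add] at hn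
          rw [(mul_eq_zero.mp hn).resolve_right h', h]; simp
        · refine ⟨-(n 1 / u 0), ?_, by field_simp⟩
          field_simp
          linarith
      have hnf : ∀ z, n ⬝ᵥ z = κ * f z := by
        intro z
        simp only [dotProduct, Fin.sum_univ_two, hf, hκ0, hκ1]
        ring
      rcases lt_trichotomy κ 0 with hκ | hκ | hκ
      · refine ⟨false, hxX, fun z hz hzx => ?_⟩
        have := hmax z hz hzx
        rw [hnf, hnf] at this
        have h' : f x < f z := by
          by_contra h''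
          push Not at h''
          nlinarith
        simp only [sgb]
        norm_num
        exact h'
      · refine ⟨true, hxX, fun z hz hzx => ?_⟩
        have := hmax z hz hzx
        rw [hnf, hnf, hκ] at this
        simp at this
      · refine ⟨true, hxX, fun z hz hzx => ?_⟩
        have := hmax z hz hzx
        rw [hnf, hnf] at this
        have h' : f z < f x := lt_of_mul_lt_mul_left this hκ.le
        simp only [sgb]
        norm_num
        exact h'
    set c := p ⬝ᵥ w with hc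
    set d := q ⬝ᵥ w with hd
    set V := v0 * x 0 + v1 * x 1 with hV
    have k1 : V * c ≤ 0 := by
      have := hp2 x hxX
      rw [hU x, dotProduct_add, dotProduct_smul, smul_eq_mul] at this
      linarith
    have k2 : 0 ≤ V * d := by
      have := hq2 x hxX
      rw [hU x, dotProduct_add, dotProduct_smul, smul_eq_mul] at this
      linarith
    have hV0 : V ≠ 0 := by
      intro h
      apply hne
      rw [hU x, ← hV, h, zero_smul, add_zero]
    set t := (1 + (v0 * u 0 + v1 * u 1)) * d with ht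
    have hψu : (p ᵥ* S) ⬝ᵥ u = c := by rw [← dot_vm, hSu]
    have htu : (q ᵥ* U) ⬝ᵥ u = t := by
      rw [← dot_vm, hUu, dotProduct_smul, smul_eq_mul]
    have m1 : ∀ z ∈ X, z ≠ x → (p ᵥ* S) ⬝ᵥ z < (p ᵥ* S) ⬝ᵥ x := by
      intro z hz hzx
      rw [← dot_vm, ← dot_vm]; exact hp1 z hz hzx
    have m2 : ∀ z ∈ X, z ≠ x → (q ᵥ* U) ⬝ᵥ z < (q ᵥ* U) ⬝ᵥ x := by
      intro z hz hzx
      rw [← dot_vm, ← dot_vm]; exact hq1 z hz hzx
    have k3 : 0 ≤ V * t := by
      have : V * t = (1 + (v0 * u 0 + v1 * u 1)) * (V * d) := by rw [ht]; ring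
      rw [this]
      exact mul_nonneg hpos.le k2
    by_cases hc0 : c = 0
    · refine key (p ᵥ* S) ?_ m1
      rw [hc0] at hψu
      simpa [dotProduct, Fin.sum_univ_two] using hψu
    · -- combination
      have e1 : ∀ (α β : ℝ) (z : V2), (α • (p ᵥ* S) + β • (q ᵥ* U)) ⬝ᵥ z =
          α * ((p ᵥ* S) ⬝ᵥ z) + β * ((q ᵥ* U) ⬝ᵥ z) := by
        intro α β z
        rw [add_dotProduct, smul_dotProduct, smul_dotProduct, smul_eq_mul, smul_eq_mul]
      rcases lt_or_gt_of_ne hV0 with hVn | hVp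
      · -- V < 0: c ≥ 0, t ≤ 0
        have hcp : 0 < c := by
          rcases lt_or_gt_of_ne hc0 with h | h
          · nlinarith
          · exact h
        have htn : t ≤ 0 := by
          by_contra h'
          push Not at h'
          nlinarith
        refine key ((-t) • (p ᵥ* S) + c • (q ᵥ* U)) ?_ ?_
        · have := e1 (-t) c u
          rw [hψu, htu] at this
          have h3 : -t * c + c * t = 0 := by ring
          rw [h3] at this
          simpa [dotProduct, Fin.sum_univ_two] using this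
        · intro z hz hzx
          rw [e1, e1]
          have a1 := m1 z hz hzx
          have a2 := m2 z hz hzx
          have a3 : (-t) * ((p ᵥ* S) ⬝ᵥ z) ≤ (-t) * ((p ᵥ* S) ⬝ᵥ x) :=
            mul_le_mul_of_nonneg_left a1.le (by linarith)
          have a4 : c * ((q ᵥ* U) ⬝ᵥ z) < c * ((q ᵥ* U) ⬝ᵥ x) := mul_lt_mul_of_pos_left a2 hcp
          linarith
      · have hcn : c < 0 := by
          rcases lt_or_gt_of_ne hc0 with h | h
          · exact h
          · nlinarith
        have htp : 0 ≤ t := by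
          by_contra h'
          push Not at h'
          nlinarith
        refine key (t • (p ᵥ* S) + (-c) • (q ᵥ* U)) ?_ ?_
        · have := e1 t (-c) u
          rw [hψu, htu] at this
          have h3 : t * c + -c * t = 0 := by ring
          rw [h3] at this
          simpa [dotProduct, Fin.sum_univ_two] using this
        · intro z hz hzx
          rw [e1, e1]
          have a1 := m1 z hz hzx
          have a2 := m2 z hz hzx
          have a3 : t * ((p ᵥ* S) ⬝ᵥ z) ≤ t * ((p ᵥ* S) ⬝ᵥ x) :=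
            mul_le_mul_of_nonneg_left a1.le htp
          have a4 : (-c) * ((q ᵥ* U) ⬝ᵥ z) < (-c) * ((q ᵥ* U) ⬝ᵥ x) :=
            mul_lt_mul_of_pos_left a2 (by linarith)
          linarith
  have h := encard_le_of_cover (Dm S U X)
    (fun s : Bool => {x | x ∈ X ∧ ∀ z ∈ X, z ≠ x → sgb s * f z < sgb s * f x}) hcov 1
    (fun s => (Set.encard_le_encard Set.inter_subset_right).trans (by
      rw [Nat.cast_one]
      apply encard_le_one'
      intro x hx y hy
      by_contra hxy
      have h1 := hx.2 y hy.1 (Ne.symm hxy)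
      have h2 := hy.2 x hx.1 hxy
      linarith))
  simpa using h

/-- the condition on pairs -/
def Good (S U : M2) : Prop :=
  0 < S.det * U.det ∧ (S.det * (S - U).det ≤ 0 ∨ ∃ r : ℝ, 0 < r ∧ U = r • S)

lemma Dm_good (S U : M2) (X : Set V2) (h : Good S U) (h0 : (0 : V2) ∈ X) :
    (Dm S U X).encard ≤ 8 := by
  obtain ⟨h1, h2⟩ := h
  rcases h2 with h2 | ⟨r, hr, hU⟩
  · rcases lt_or_eq_of_le h2 with h3 | h3
    · exact Dm_hyp S U X h1 h3 h0
    · have hD : S.det ≠ 0 := fun h => by rw [h, zero_mul] at h1; exact lt_irrefl _ h1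
      exact (Dm_sing S U X h1 ((mul_eq_zero.mp h3).resolve_left hD)).trans (by norm_num)
  · rw [Dm_smul S U X r hr hU h0]
    simp

end Pool.Oligo
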