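import Pool.Agent.Work.MP_eceddd_h11.Step
import Pool.Agent.Work.MP_eceddd_h11.Count

/-!
# MP_eceddd_an: separated sets have the polynomial-vertex property (helper11)
-/

set_option autoImplicit false

open scoped Matrix

namespace Pool.Oligo

lemma states_succ (S : Finset M2) (a : V2) (k : ℕ) :
    states S a (k + 1) = nxt S (states S a k) := rfl

/-- crude bound -/
lemma states_card (S : Finset M2) (a : V2) (k : ℕ) :
    (states S a k).encard ≤ (S.card ^ k : ℕ) := by
  classical
  induction k with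
  | zero => simp [states]
  | succ k ih =>
    have h := encard_le_of_cover (states S a (k + 1))
      (fun T : S => (fun x => (T : M2) *ᵥ x) '' states S a k)
      (by rintro y ⟨T, hT, x, hx, rfl⟩; exact ⟨⟨T, hT⟩, x, hx, rfl⟩) (S.card ^ k)
      (fun T => (Set.encard_le_encard Set.inter_subset_right).trans
        ((Set.encard_image_le _ _).trans ih))
    rw [Fintype.card_coe] at h
    rwa [pow_succ, mul_comm]

lemma verts_card (S : Finset M2) (a : V2) (k : ℕ) : (verts S a k).encard ≤ (S.card ^ k : ℕ) :=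
  (Set.encard_le_encard (verts_subset S a k)).trans (states_card S a k)

/-- `0 ∈ P_k` implies `0 ∈ P_(k+1)` -/
lemma zero_mem_succ (S : Finset M2) (hS : S.Nonempty) (a : V2) (k : ℕ)
    (h : (0 : V2) ∈ convexHull ℝ (states S a k)) :
    (0 : V2) ∈ convexHull ℝ (states S a (k + 1)) := by
  obtain ⟨T, hT⟩ := hS
  have := mulVec_hull T (states S a k) (states S a (k + 1)) (fun x hx => ⟨T, hT, x, hx, rfl⟩) 0 h
  rwa [Matrix.mulVec_zero] at this

lemma zero_mem_add (S : Finset M2) (hS : S.Nonempty) (a : V2) (k j : ℕ)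
    (h : (0 : V2) ∈ convexHull ℝ (states S a k)) :
    (0 : V2) ∈ convexHull ℝ (states S a (k + j)) := by
  induction j with
  | zero => exact h
  | succ j ih => exact zero_mem_succ S hS a _ ih

/-- from a bound for all large `k` -/
lemma poly_of_large (S : Finset M2) (k0 n c : ℕ)
    (h : ∀ k a, k0 ≤ k → (verts S a k).encard ≤ (n + k * c : ℕ)) : PolyVertex S := by
  apply poly_of_bound S (n + c + (S.card + 1) ^ k0) 1
  intro k a
  by_cases hk : k0 ≤ k
  · refine (h k a hk).trans ?_
    have : n + k * c ≤ (n + c + (S.card + 1) ^ k0) * (k + 1) ^ 1 := by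
      rw [pow_one]
      nlinarith [Nat.zero_le (n * k), Nat.zero_le ((S.card + 1) ^ k0 * (k + 1)), Nat.zero_le c]
    exact_mod_cast this
  · push Not at hk
    refine (verts_card S a k).trans ?_
    have h1 : S.card ^ k ≤ (S.card + 1) ^ k0 :=
      (Nat.pow_le_pow_left (Nat.le_succ _) k).trans
        (Nat.pow_le_pow_right (Nat.succ_pos _) hk.le)
    have : S.card ^ k ≤ (n + c + (S.card + 1) ^ k0) * (k + 1) ^ 1 := by
      rw [pow_one]
      nlinarith [Nat.zero_le ((n + c) * (k + 1)), Nat.zero_le ((S.card + 1) ^ k0 * k)]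
    exact_mod_cast this

/-- the sequence of sets with `0` (and the negatives) added -/
def ser (S : Finset M2) (X0 : Set V2) : ℕ → Set V2
  | 0 => X0
  | k + 1 => nxt S (ser S X0 k)

/-- invertible sets, all pairs good, `0` in the hulls -/
theorem sep_inv (S : Finset M2) (hinv : ∀ T ∈ S, T.det ≠ 0)
    (h : ∀ T ∈ S, ∀ U ∈ S, T ≠ U → Good T U) (k0 : ℕ)
    (h0 : ∀ a, (0 : V2) ∈ convexHull ℝ (states S a k0)) : PolyVertex S := by
  rcases S.eq_empty_or_nonempty with rfl | hS
  · apply poly_of_large ∅ 1 0 0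
    intro k a hk
    obtain ⟨j, rfl⟩ : ∃ j, k = j + 1 := ⟨k - 1, by omega⟩
    refine (verts_card ∅ a (j + 1)).trans ?_
    simp
  apply poly_of_large S k0 2 (S.card * S.card * 8)
  intro k a hk
  -- the hulls
  have hser : ∀ k, ser S {0, a} k = insert 0 (states S a k) := by
    intro k
    induction k with
    | zero => rfl
    | succ k ih =>
      change nxt S (ser S {0, a} k) = _
      rw [ih]
      ext y
      constructor
      · rintro ⟨T, hT, x, hx, rfl⟩
        rcases hx with rfl | hx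
        · rw [Matrix.mulVec_zero]; exact Set.mem_insert _ _
        · exact Set.mem_insert_of_mem _ ⟨T, hT, x, hx, rfl⟩
      · rintro (rfl | ⟨T, hT, x, hx, rfl⟩)
        · obtain ⟨T, hT⟩ := hS
          exact ⟨T, hT, 0, Set.mem_insert _ _, by rw [Matrix.mulVec_zero]⟩
        · exact ⟨T, hT, x, Set.mem_insert_of_mem _ hx, rfl⟩
  have h0k : (0 : V2) ∈ convexHull ℝ (states S a k) := by
    obtain ⟨j, rfl⟩ := Nat.exists_eq_add_of_le hk
    exact zero_mem_add S hS a k0 j (h0 a)
  have hhull : convexHull ℝ (ser S {0, a} k) = convexHull ℝ (states S a k) := by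
    apply Set.Subset.antisymm
    · refine convexHull_min ?_ (convex_convexHull ℝ _)
      rw [hser]
      rintro y (rfl | hy)
      · exact h0k
      · exact subset_convexHull ℝ _ hy
    · refine convexHull_mono ?_
      rw [hser]
      exact Set.subset_insert _ _
  have hver : verts S a k = ex (ser S {0, a} k) := by
    unfold verts ex
    rw [hhull]
  rw [hver]
  refine seq_bound S hinv (ser S {0, a}) (fun _ => rfl) (fun Y => Y.Finite ∧ (0 : V2) ∈ Y) ?_ ?_
    (fun Y hY => hY.1) False (fun h => h.elim) 8 2 ?_ ?_ k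
  · rintro Y ⟨hf, hz⟩
    obtain ⟨T, hT⟩ := hS
    exact ⟨nxt_finite S Y hf, ⟨T, hT, 0, hz, by rw [Matrix.mulVec_zero]⟩⟩
  · exact ⟨Set.toFinite ({0, a} : Set V2), Set.mem_insert _ _⟩
  · rintro Y ⟨hf, hz⟩ T hT U hU
    by_cases hTU : T = U
    · subst hTU
      refine (Set.encard_le_encard (t := ∅) ?_).trans (by simp)
      rintro x ⟨_, hne, _⟩
      exact absurd rfl hne
    · refine (Set.encard_le_encard ?_).trans (Dm_good T U Y (h T hT U hU hTU) hz)
      rintro x ⟨hx, hne, -, h1, h2⟩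
      exact ⟨hx, hne,
        surv S Y hf T U (fun z hz => ⟨U, hU, z, hz, rfl⟩) (fun z hz => ⟨T, hT, z, hz, rfl⟩)
          (hinv T hT) x hx h1,
        surv S Y hf U T (fun z hz => ⟨T, hT, z, hz, rfl⟩) (fun z hz => ⟨U, hU, z, hz, rfl⟩)
          (hinv U hU) x hx h2⟩
  · refine (Set.encard_le_encard (ex_subset _)).trans ?_
    exact encard_pair_le' 0 a

/-- symmetric invertible sets -/
theorem sep_sym_inv (S : Finset M2) (hinv : ∀ T ∈ S, T.det ≠ 0) (hneg : ∀ T ∈ S, -T ∈ S)
    (h : ∀ T ∈ S, ∀ U ∈ S, T ≠ U → T ≠ -U → Good T U ∨ Good T (-U)) : PolyVertex S := by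
  rcases S.eq_empty_or_nonempty with rfl | hS
  · apply poly_of_large ∅ 1 0 0
    intro k a hk
    obtain ⟨j, rfl⟩ : ∃ j, k = j + 1 := ⟨k - 1, by omega⟩
    refine (verts_card ∅ a (j + 1)).trans ?_
    simp
  apply poly_of_large S 1 3 (S.card * S.card * 8)
  intro k a hk
  have hsym : ∀ k, 1 ≤ k → ∀ y ∈ states S a k, -y ∈ states S a k := by
    intro k hk y hy
    obtain ⟨j, rfl⟩ : ∃ j, k = j + 1 := ⟨k - 1, by omega⟩
    obtain ⟨T, hT, x, hx, rfl⟩ := hy
    exact ⟨-T, hneg T hT, x, hx, by rw [Matrix.neg_mulVec]⟩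
  have hser : ∀ k, ∀ y ∈ ser S {0, a, -a} k, y = 0 ∨ y ∈ states S a k ∨ -y ∈ states S a k := by
    intro k
    induction k with
    | zero =>
      rintro y (rfl | rfl | rfl)
      · exact Or.inl rfl
      · exact Or.inr (Or.inl rfl)
      · exact Or.inr (Or.inr (by rw [neg_neg]; rfl))
    | succ k ih =>
      rintro y ⟨T, hT, x, hx, rfl⟩
      rcases ih x hx with rfl | hx | hx
      · exact Or.inl (Matrix.mulVec_zero _)
      · exact Or.inr (Or.inl ⟨T, hT, x, hx, rfl⟩)
      · exact Or.inr (Or.inr ⟨T, hT, -x, hx, by rw [Matrix.mulVec_neg]⟩)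
  have hser' : ∀ k, states S a k ⊆ ser S {0, a, -a} k := by
    intro k
    induction k with
    | zero =>
      intro y hy
      have : y = a := hy
      rw [this]
      exact Or.inr (Or.inl rfl)
    | succ k ih =>
      rintro y ⟨T, hT, x, hx, rfl⟩
      exact ⟨T, hT, x, ih hx, rfl⟩
  have hne : (states S a k).Nonempty := by
    clear hk
    induction k with
    | zero => exact ⟨a, rfl⟩
    | succ k ih =>
      obtain ⟨x, hx⟩ := ih
      obtain ⟨T, hT⟩ := hS
      exact ⟨T *ᵥ x, T, hT, x, hx, rfl⟩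
  have h0k : (0 : V2) ∈ convexHull ℝ (states S a k) := by
    obtain ⟨y, hy⟩ := hne
    have h1 := subset_convexHull ℝ _ hy
    have h2 := subset_convexHull ℝ _ (hsym k hk y hy)
    have h3 := (convex_convexHull ℝ (states S a k)) h1 h2 (a := 1 / 2) (b := 1 / 2)
      (by norm_num) (by norm_num) (by norm_num)
    have h4 : (1 / 2 : ℝ) • y + (1 / 2 : ℝ) • (-y) = 0 := by
      rw [smul_neg, add_neg_cancel]
    rwa [h4] at h3
  have hhull : convexHull ℝ (ser S {0, a, -a} k) = convexHull ℝ (states S a k) := by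
    apply Set.Subset.antisymm
    · refine convexHull_min ?_ (convex_convexHull ℝ _)
      intro y hy
      rcases hser k y hy with rfl | hy | hy
      · exact h0k
      · exact subset_convexHull ℝ _ hy
      · have := hsym k hk _ hy
        rw [neg_neg] at this
        exact subset_convexHull ℝ _ this
    · exact convexHull_mono (hser' k)
  have hver : verts S a k = ex (ser S {0, a, -a} k) := by
    unfold verts ex
    rw [hhull]
  rw [hver]
  refine seq_bound S hinv (ser S {0, a, -a}) (fun _ => rfl)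
    (fun Y => Y.Finite ∧ (0 : V2) ∈ Y ∧ ∀ x ∈ Y, -x ∈ Y) ?_ ?_
    (fun Y hY => hY.1) True (fun _ Y hY => hY.2.2) 8 3 ?_ ?_ k
  · rintro Y ⟨hf, hz, hn⟩
    refine ⟨nxt_finite S Y hf, ?_, ?_⟩
    · obtain ⟨T, hT⟩ := hS
      exact ⟨T, hT, 0, hz, by rw [Matrix.mulVec_zero]⟩
    · rintro y ⟨T, hT, x, hx, rfl⟩
      exact ⟨T, hT, -x, hn x hx, by rw [Matrix.mulVec_neg]⟩
  · refine ⟨Set.toFinite ({0, a, -a} : Set V2), Set.mem_insert _ _, ?_⟩
    rintro y (rfl | rfl | rfl)
    · rw [neg_zero]; exact Or.inl rfl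
    · exact Or.inr (Or.inr rfl)
    · rw [neg_neg]; exact Or.inr (Or.inl rfl)
  · rintro Y ⟨hf, hz, hn⟩ T hT U hU
    by_cases hTU : T = U
    · subst hTU
      refine (Set.encard_le_encard (t := ∅) ?_).trans (by simp)
      rintro x ⟨_, hne, _⟩
      exact absurd rfl hne
    · by_cases hTU' : T = -U
      · subst hTU'
        refine (Set.encard_le_encard (t := ∅) ?_).trans (by simp)
        rintro x ⟨_, _, hne, _⟩
        exact absurd (Matrix.neg_mulVec _ _) (hne trivial)
      · have hT2 : ∀ z ∈ Y, T *ᵥ z ∈ nxt S Y := fun z hz => ⟨T, hT, z, hz, rfl⟩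
        have hU2 : ∀ z ∈ Y, U *ᵥ z ∈ nxt S Y := fun z hz => ⟨U, hU, z, hz, rfl⟩
        have hU3 : ∀ z ∈ Y, (-U) *ᵥ z ∈ nxt S Y := fun z hz =>
          ⟨U, hU, -z, hn z hz, by rw [Matrix.mulVec_neg, Matrix.neg_mulVec]⟩
        rcases h T hT U hU hTU hTU' with hg | hg
        · refine (Set.encard_le_encard ?_).trans (Dm_good T U Y hg hz)
          rintro x ⟨hx, hne, -, h1, h2⟩
          exact ⟨hx, hne, surv S Y hf T U hU2 hT2 (hinv T hT) x hx h1,
            surv S Y hf U T hT2 hU2 (hinv U hU) x hx h2⟩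
        · refine (Set.encard_le_encard ?_).trans (Dm_good T (-U) Y hg hz)
          rintro x ⟨hx, -, hne, h1, h2⟩
          have hdU : (-U).det ≠ 0 := hinv _ (hneg U hU)
          have h2' : (-U) *ᵥ x ∈ ex (nxt S Y) := by
            rw [Matrix.neg_mulVec]
            have hneg' : ∀ z ∈ nxt S Y, (-1 : M2) *ᵥ z ∈ nxt S Y := by
              rintro z ⟨T, hT, x, hx, rfl⟩
              refine ⟨T, hT, -x, hn x hx, ?_⟩
              rw [Matrix.neg_mulVec, Matrix.one_mulVec, Matrix.mulVec_neg]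
            have e1 : (-1 : M2).det ≠ 0 := by rw [Matrix.det_neg]; simp
            have e2 : (-1 : M2) *ᵥ (U *ᵥ x) ∈ nxt S Y := hneg' _ (hU2 x hx)
            rw [Matrix.neg_mulVec, Matrix.one_mulVec] at e2
            refine ext_pull (-1) e1 (convexHull ℝ (nxt S Y)) (convexHull ℝ (nxt S Y))
              (fun z hz => mulVec_hull (-1) _ _ hneg' z hz) _ (subset_convexHull ℝ _ e2) ?_
            rw [Matrix.neg_mulVec, Matrix.one_mulVec, neg_neg]
            exact h2
          exact ⟨hx, fun h' => hne trivial (by rw [h', Matrix.neg_mulVec]),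
            surv S Y hf T (-U) hU3 hT2 (hinv T hT) x hx h1,
            surv S Y hf (-U) T hT2 hU3 hdU x hx h2'⟩
  · refine (Set.encard_le_encard (ex_subset _)).trans ?_
    refine (Set.encard_insert_le _ _).trans ?_
    have := encard_pair_le' a (-a)
    calc ({a, -a} : Set V2).encard + 1 ≤ 2 + 1 := add_le_add_left this 1
      _ = ((3 : ℕ) : ℕ∞) := by norm_num

/-- invertible sets with singular differences, no condition on the hulls -/
theorem sing_inv (S : Finset M2) (h : ∀ T ∈ S, ∀ U ∈ S, 0 < T.det * U.det ∧ (T - U).det = 0) :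
    PolyVertex S := by
  have hinv : ∀ T ∈ S, T.det ≠ 0 := by
    intro T hT h0
    have := (h T hT T hT).1
    rw [h0, zero_mul] at this
    exact lt_irrefl _ this
  apply poly_of_large S 0 1 (S.card * S.card * 2)
  intro k a hk
  refine seq_bound S hinv (states S a) (fun _ => rfl) (fun Y => Y.Finite)
    (fun Y hY => nxt_finite S Y hY) (Set.finite_singleton a) (fun Y hY => hY) False
    (fun h => h.elim) 2 1 ?_ ?_ k
  · rintro Y hf T hT U hU
    refine (Set.encard_le_encard ?_).trans (Dm_sing T U Y (h T hT U hU).1 (h T hT U hU).2)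
    rintro x ⟨hx, hne, -, h1, h2⟩
    exact ⟨hx, hne,
      surv S Y hf T U (fun z hz => ⟨U, hU, z, hz, rfl⟩) (fun z hz => ⟨T, hT, z, hz, rfl⟩)
        (hinv T hT) x hx h1,
      surv S Y hf U T (fun z hz => ⟨T, hT, z, hz, rfl⟩) (fun z hz => ⟨U, hU, z, hz, rfl⟩)
        (hinv U hU) x hx h2⟩
  · refine (Set.encard_le_encard (ex_subset _)).trans ?_
    change ({a} : Set V2).encard ≤ _
    simp

/-- separated sets with `0` in the hulls -/
theorem sep_main (S : Finset M2)
    (h : ∀ T ∈ S, ∀ U ∈ S, T.det ≠ 0 → U.det ≠ 0 → T ≠ U →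
      0 < T.det * U.det ∧ (T.det * (T - U).det ≤ 0 ∨ ∃ r : ℝ, 0 < r ∧ U = r • T)) (k0 : ℕ)
    (h0 : ∀ a, (0 : V2) ∈ convexHull ℝ (states (S.filter fun T => T.det ≠ 0) a k0)) :
    PolyVertex S := by
  apply reduction
  refine sep_inv _ (fun T hT => (Finset.mem_filter.mp hT).2) ?_ k0 h0
  intro T hT U hU hTU
  rw [Finset.mem_filter] at hT hU
  exact h T hT.1 U hU.1 hT.2 hU.2 hTU

/-- symmetric separated sets -/
theorem sep_sym_main (S : Finset M2) (hneg : ∀ T ∈ S, T.det ≠ 0 → -T ∈ S)
    (h : ∀ T ∈ S, ∀ U ∈ S, T.det ≠ 0 → U.det ≠ 0 →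
      0 < T.det * U.det ∧ ((T - U).det * (T + U).det ≤ 0 ∨ ∃ r : ℝ, U = r • T)) :
    PolyVertex S := by
  have hdn : ∀ T : M2, (-T).det = T.det := by
    intro T; rw [Matrix.det_neg]; simp
  apply reduction
  refine sep_sym_inv _ (fun T hT => (Finset.mem_filter.mp hT).2) ?_ ?_
  · intro T hT
    rw [Finset.mem_filter] at hT ⊢
    exact ⟨hneg T hT.1 hT.2, by rw [hdn]; exact hT.2⟩
  · intro T hT U hU hTU hTU'
    rw [Finset.mem_filter] at hT hU
    obtain ⟨h1, h2⟩ := h T hT.1 U hU.1 hT.2 hU.2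
    rcases h2 with h2 | ⟨r, hr⟩
    · by_cases h3 : T.det * (T - U).det ≤ 0
      · exact Or.inl ⟨h1, Or.inl h3⟩
      · push Not at h3
        refine Or.inr ⟨by rw [hdn]; exact h1, Or.inl ?_⟩
        rw [sub_neg_eq_add]
        by_contra h4
        push Not at h4
        have h5 : 0 < (T.det * (T - U).det) * (T.det * (T + U).det) := mul_pos h3 h4
        have h6 : (T.det * (T - U).det) * (T.det * (T + U).det) =
            (T.det * T.det) * ((T - U).det * (T + U).det) := by ring
        rw [h6] at h5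
        have h7 := mul_nonpos_of_nonneg_of_nonpos (mul_self_nonneg T.det) h2
        linarith
    · have hr0 : r ≠ 0 := by
        intro h0
        rw [h0, zero_smul] at hr
        apply hU.2
        rw [hr]; simp
      rcases lt_or_gt_of_ne hr0 with hr1 | hr1
      · refine Or.inr ⟨by rw [hdn]; exact h1, Or.inr ⟨-r, by linarith, ?_⟩⟩
        rw [hr, neg_smul]
      · exact Or.inl ⟨h1, Or.inr ⟨r, hr1, hr⟩⟩

/-- singular differences -/
theorem sing_main (S : Finset M2)
    (h : ∀ T ∈ S, ∀ U ∈ S, T.det ≠ 0 → U.det ≠ 0 → 0 < T.det * U.det ∧ (T - U).det = 0) :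
    PolyVertex S := by
  apply reduction
  apply sing_inv
  intro T hT U hU
  rw [Finset.mem_filter] at hT hU
  exact h T hT.1 U hU.1 hT.2 hU.2

end Pool.Oligo
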