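import Pool.Agent.Work.MP_eceddd_h11.Struct

/-!
# MP_eceddd_an: virtually solvable subgroups of GL_2(R), second part (helper11)
-/

set_option autoImplicit false

open scoped Matrix commutatorElement

namespace Pool.Oligo

lemma finite_multiples (B : M2) (b s : ℝ) (hb : b ≠ 0) (hB : B * B = b • (1 : M2)) :
    {X : M2 | X * X = s • (1 : M2) ∧ ∃ c : ℝ, X = c • B}.Finite := by
  refine (Set.toFinite ({√(s / b) • B, (-√(s / b)) • B} : Set M2)).subset ?_
  rintro X ⟨hX, c, rfl⟩
  rw [smul_mul_assoc, mul_smul_comm, smul_smul, hB, smul_smul] at hX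
  have e := congrFun (congrFun hX 0) 0
  simp only [Matrix.smul_apply, Matrix.one_apply_eq, smul_eq_mul, mul_one] at e
  have e2 : s / b = c ^ 2 := by
    rw [← e]; field_simp
  rw [e2, Real.sqrt_sq_eq_abs]
  rcases abs_choice c with h | h
  · left; rw [h]
  · right; rw [h, neg_neg]; rfl

/-- `X` commutes or anticommutes with `T` -/
def CA (X T : M2) : Prop := X * T = T * X ∨ X * T = -(T * X)

lemma classify {S U X : M2} {s u : ℝ} (hs : s ≠ 0) (hu : u ≠ 0) (hS : S * S = s • (1 : M2))
    (hU : U * U = u • (1 : M2)) (hSn : ¬ Scal S) (hUn : ¬ Scal U) (hSU : S * U = -(U * S))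
    (hSU0 : S * U ≠ 0) (h1 : CA X S) (h2 : CA X U) :
    (∃ c : ℝ, X = c • (1 : M2)) ∨ (∃ c : ℝ, X = c • S) ∨ (∃ c : ℝ, X = c • U) ∨
      ∃ c : ℝ, X = c • (S * U) := by
  have hUS : U * S = -(S * U) := by rw [hSU, neg_neg]
  have hU0 : U ≠ 0 := fun h => hUn ⟨0, by rw [h, zero_smul]⟩
  have hS0 : S ≠ 0 := fun h => hSn ⟨0, by rw [h, zero_smul]⟩
  rcases h1 with h1 | h1
  · obtain ⟨p, q, hX⟩ := centr hSn h1
    rcases h2 with h2 | h2
    · left
      refine ⟨p, ?_⟩
      rw [hX] at h2 ⊢
      simp only [add_mul, mul_add, smul_mul_assoc, mul_smul_comm, one_mul, mul_one, hUS] at h2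
      have h3 : (2 * q) • (S * U) = 0 := by
        have : q • (S * U) = -(q • (S * U)) :=
          (add_left_cancel h2).trans (smul_neg _ _)
        calc (2 * q) • (S * U) = q • (S * U) + q • (S * U) := by rw [two_mul, add_smul]
          _ = 0 := by nth_rewrite 1 [this]; exact neg_add_cancel _
      have h4 := (smul_eq_zero.mp h3).resolve_right hSU0
      have : q = 0 := by linarith
      rw [this, zero_smul, add_zero]
    · right; left
      refine ⟨q, ?_⟩
      rw [hX] at h2 ⊢
      simp only [add_mul, mul_add, smul_mul_assoc, mul_smul_comm, one_mul, mul_one, hUS] at h2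
      have h3 : (2 * p) • U = 0 := by
        have h5 : p • U + q • (S * U) = -(p • U) + q • (S * U) := by
          rw [h2]; module
        have := add_right_cancel h5
        calc (2 * p) • U = p • U + p • U := by rw [two_mul, add_smul]
          _ = 0 := by nth_rewrite 1 [this]; exact neg_add_cancel _
      have h4 := (smul_eq_zero.mp h3).resolve_right hU0
      have : p = 0 := by linarith
      rw [this, zero_smul, zero_add]
  · rcases h2 with h2 | h2
    · right; right; left
      obtain ⟨p, q, hX⟩ := centr hUn h2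
      refine ⟨q, ?_⟩
      rw [hX] at h1 ⊢
      simp only [add_mul, mul_add, smul_mul_assoc, mul_smul_comm, one_mul, mul_one, hUS] at h1
      have h3 : (2 * p) • S = 0 := by
        have h5 : p • S + q • -(S * U) = -(p • S) + q • -(S * U) := by
          rw [h1]; module
        have := add_right_cancel h5
        calc (2 * p) • S = p • S + p • S := by rw [two_mul, add_smul]
          _ = 0 := by nth_rewrite 1 [this]; exact neg_add_cancel _
      have h4 := (smul_eq_zero.mp h3).resolve_right hS0
      have : p = 0 := by linarith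
      rw [this, zero_smul, zero_add]
    · right; right; right
      -- X S U commutes with S and with U
      have c1 : (X * (S * U)) * S = S * (X * (S * U)) := by
        calc (X * (S * U)) * S = (X * S) * (U * S) := by simp only [mul_assoc]
          _ = -(S * X) * -(S * U) := by rw [h1, hUS]
          _ = S * (X * (S * U)) := by simp only [neg_mul_neg, mul_assoc]
      have c2 : (X * (S * U)) * U = U * (X * (S * U)) := by
        have h2' : U * X = -(X * U) := by rw [h2, neg_neg]
        calc (X * (S * U)) * U = X * (S * U) * U := rfl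
          _ = X * -(U * S) * U := by rw [hSU]
          _ = -(X * U) * (S * U) := by simp only [mul_neg, neg_mul, mul_assoc]
          _ = (U * X) * (S * U) := by rw [h2']
          _ = U * (X * (S * U)) := by simp only [mul_assoc]
      obtain ⟨p, q, hY⟩ := centr hSn c1
      have hq : q = 0 := by
        rw [hY] at c2
        simp only [add_mul, mul_add, smul_mul_assoc, mul_smul_comm, one_mul, mul_one, hUS] at c2
        have h3 : (2 * q) • (S * U) = 0 := by
          have : q • (S * U) = -(q • (S * U)) :=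
            (add_left_cancel c2).trans (smul_neg _ _)
          calc (2 * q) • (S * U) = q • (S * U) + q • (S * U) := by rw [two_mul, add_smul]
            _ = 0 := by nth_rewrite 1 [this]; exact neg_add_cancel _
        have h4 := (smul_eq_zero.mp h3).resolve_right hSU0
        linarith
      rw [hq, zero_smul, add_zero] at hY
      have hW : (S * U) * (S * U) = (-(s * u)) • (1 : M2) := by
        calc (S * U) * (S * U) = S * (U * S) * U := by simp only [mul_assoc]
          _ = S * -(S * U) * U := by rw [hUS]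
          _ = -((S * S) * (U * U)) := by simp only [mul_neg, neg_mul, mul_assoc]
          _ = (-(s * u)) • (1 : M2) := by
            rw [hS, hU, smul_mul_assoc, one_mul, smul_smul, neg_smul]
      have h6 : (-(s * u)) • X = p • (S * U) := by
        calc (-(s * u)) • X = X * ((-(s * u)) • (1 : M2)) := by rw [mul_smul_comm, mul_one]
          _ = X * ((S * U) * (S * U)) := by rw [hW]
          _ = (X * (S * U)) * (S * U) := by simp only [mul_assoc]
          _ = p • (S * U) := by rw [hY, smul_mul_assoc, one_mul]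
      have hne : -(s * u) ≠ 0 := neg_ne_zero.mpr (mul_ne_zero hs hu)
      refine ⟨(-(s * u))⁻¹ * p, ?_⟩
      rw [← smul_smul, ← h6, smul_smul, inv_mul_cancel₀ hne, one_smul]

/-- Case 2: two anticommuting elements -/
theorem case_two (G : Subgroup (GL (Fin 2) ℝ)) (S U : G)
    (hSU : mt S * mt U = -(mt U * mt S))
    (h1 : ∀ g : G, CA (mt (g * S * g⁻¹)) (mt S) ∧ CA (mt (g * S * g⁻¹)) (mt U))
    (h2 : ∀ g : G, CA (mt (g * U * g⁻¹)) (mt S) ∧ CA (mt (g * U * g⁻¹)) (mt U)) : Struct G := by
  have hSU0 : mt S * mt U ≠ 0 := by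
    intro h0
    have := mt_det (S * U)
    rw [mt_mul, h0] at this
    exact this Matrix.det_zero
  have hUS0 : mt U * mt S ≠ 0 := by
    intro h0
    rw [h0, neg_zero] at hSU
    exact hSU0 hSU
  have hSn : ¬ Scal (mt S) := by
    rintro ⟨c, hc⟩
    rw [hc, smul_mul_assoc, mul_smul_comm, one_mul, mul_one] at hSU
    have : (2 * c) • mt U = 0 := by
      rw [two_mul, add_smul]
      nth_rewrite 1 [hSU]
      exact neg_add_cancel _
    apply hSU0
    rw [hc, smul_mul_assoc, one_mul]
    rcases smul_eq_zero.mp this with h | h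
    · rw [show c = 0 by linarith, zero_smul]
    · rw [h, smul_zero]
  have hUn : ¬ Scal (mt U) := by
    rintro ⟨c, hc⟩
    rw [hc, smul_mul_assoc, mul_smul_comm, one_mul, mul_one] at hSU
    have : (2 * c) • mt S = 0 := by
      rw [two_mul, add_smul]
      nth_rewrite 1 [hSU]
      exact neg_add_cancel _
    apply hSU0
    rw [hc, mul_smul_comm, mul_one]
    rcases smul_eq_zero.mp this with h | h
    · rw [show c = 0 by linarith, zero_smul]
    · rw [h, smul_zero]
  -- traces
  have tr0 : ∀ A B : G, mt A * mt B = -(mt B * mt A) → mt A 0 0 + mt A 1 1 = 0 := by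
    intro A B hAB
    have e1 : mt A = -(mt B * mt A * mt B⁻¹) := by
      calc mt A = mt A * mt B * mt B⁻¹ := by rw [mul_assoc, mt_mul_inv, mul_one]
        _ = _ := by rw [hAB, neg_mul]
    have e2 : (mt A).trace = -(mt A).trace := by
      conv_lhs => rw [e1]
      rw [Matrix.trace_neg, Matrix.trace_mul_comm, ← mul_assoc, mt_inv_mul, one_mul]
    rw [trace_eq_two] at e2
    linarith
  have hUS : mt U * mt S = -(mt S * mt U) := by rw [hSU, neg_neg]
  have hS := sq_scal (tr0 S U hSU)
  have hU := sq_scal (tr0 U S hUS)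
  set s : ℝ := -(mt S).det with hs
  set u : ℝ := -(mt U).det with hu
  have hs0 : s ≠ 0 := neg_ne_zero.mpr (mt_det S)
  have hu0 : u ≠ 0 := neg_ne_zero.mpr (mt_det U)
  have hW : (mt S * mt U) * (mt S * mt U) = (-(s * u)) • (1 : M2) := by
    calc (mt S * mt U) * (mt S * mt U) = mt S * (mt U * mt S) * mt U := by simp only [mul_assoc]
      _ = mt S * -(mt S * mt U) * mt U := by rw [hUS]
      _ = -((mt S * mt S) * (mt U * mt U)) := by simp only [mul_neg, neg_mul, mul_assoc]
      _ = (-(s * u)) • (1 : M2) := by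
        rw [hS, hU, smul_mul_assoc, one_mul, smul_smul, neg_smul]
  -- finiteness
  have hfin : ∀ w : ℝ, {X : M2 | X * X = w • (1 : M2) ∧ CA X (mt S) ∧ CA X (mt U)}.Finite := by
    intro w
    have f1 := finite_multiples 1 1 w one_ne_zero (by rw [mul_one, one_smul])
    have f2 := finite_multiples (mt S) s w hs0 hS
    have f3 := finite_multiples (mt U) u w hu0 hU
    have f4 := finite_multiples (mt S * mt U) (-(s * u)) w
      (neg_ne_zero.mpr (mul_ne_zero hs0 hu0)) hW
    refine (((f1.union f2).union f3).union f4).subset ?_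
    rintro X ⟨hX, hX1, hX2⟩
    rcases classify hs0 hu0 hS hU hSn hUn hSU hSU0 hX1 hX2 with h | h | h | h
    · exact Or.inl (Or.inl (Or.inl ⟨hX, h⟩))
    · exact Or.inl (Or.inl (Or.inr ⟨hX, h⟩))
    · exact Or.inl (Or.inr ⟨hX, h⟩)
    · exact Or.inr ⟨hX, h⟩
  have conjsq : ∀ (A g : G) (w : ℝ), mt A * mt A = w • (1 : M2) →
      mt (g * A * g⁻¹) * mt (g * A * g⁻¹) = w • (1 : M2) := by
    intro A g w hA
    have e0 : (g * A * g⁻¹) * (g * A * g⁻¹) = g * (A * A) * g⁻¹ := by group
    rw [← mt_mul, e0, mt_mul, mt_mul, mt_mul, hA, mul_smul_comm, mul_one, smul_mul_assoc,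
      mt_mul_inv]
  right
  refine ⟨cen G (mt S) ⊓ cen G (mt U), ?_, ?_⟩
  · refine finiteIndex_of_range _ (fun g => (mt (g * S * g⁻¹), mt (g * U * g⁻¹))) ?_ ?_
    · refine ((hfin s).prod (hfin u)).subset ?_
      rintro _ ⟨g, rfl⟩
      exact ⟨⟨conjsq S g s hS, h1 g⟩, ⟨conjsq U g u hU, h2 g⟩⟩
    · intro g g' hgg
      rw [Prod.mk.injEq] at hgg
      exact ⟨cen_of_conj hgg.1, cen_of_conj hgg.2⟩
  · intro x hx y hy
    apply mt_inj
    rw [mt_mul, mt_mul]
    exact commute_of_centr hSn hx.1 hy.1

/-- **Structure theorem**: a subgroup of `GL_2(R)` with a solvable subgroup of finite index has a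
common real eigenvector or a commutative subgroup of finite index. -/
theorem struct_of_vs (G : Subgroup (GL (Fin 2) ℝ)) (H : Subgroup G) (hf : H.FiniteIndex)
    (hs : Group.IsSolvable H) : Struct G := by
  classical
  have hNf : H.normalCore.FiniteIndex := inferInstance
  have hNs : Group.IsSolvable H.normalCore :=
    Group.isSolvable_of_isSolvable_injective (Subgroup.inclusion_injective H.normalCore_le)
  have hNn : H.normalCore.Normal := inferInstance
  generalize H.normalCore = N at hNf hNs hNn
  obtain ⟨n0, hn0⟩ := hNs.solvable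
  set P : ℕ → Prop := fun i => ∀ x ∈ derivedSeries N i, Scal (mt (x : G)) with hP
  have hex : ∃ i, P i := by
    refine ⟨n0, fun x hx => ?_⟩
    rw [hn0, Subgroup.mem_bot] at hx
    rw [hx]
    exact ⟨1, by rw [one_smul]; rfl⟩
  have scal_comm : ∀ A B : M2, Scal A → A * B = B * A := by
    rintro A B ⟨c, rfl⟩
    rw [smul_mul_assoc, mul_smul_comm, one_mul, mul_one]
  rcases Nat.eq_zero_or_pos (Nat.find hex) with h0 | hpos
  · right
    refine ⟨N, hNf, fun x hx y hy => ?_⟩
    have h1 := Nat.find_spec hex
    rw [h0] at h1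
    apply mt_inj
    rw [mt_mul, mt_mul]
    exact scal_comm _ _ (h1 ⟨x, hx⟩ (by rw [derivedSeries_zero]; exact Subgroup.mem_top _))
  · obtain ⟨i, hi⟩ : ∃ i, Nat.find hex = i + 1 := ⟨Nat.find hex - 1, by omega⟩
    have hnot : ¬ P i := Nat.find_min hex (by omega)
    have hyes : P (i + 1) := by rw [← hi]; exact Nat.find_spec hex
    set D : Subgroup G := (derivedSeries N i).map N.subtype with hD
    have hDn : D.Normal := by
      have : (derivedSeries N i).Characteristic := inferInstance
      exact inferInstance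
    have hDm : ∀ x ∈ derivedSeries N i, (x : G) ∈ D := fun x hx => ⟨x, hx, rfl⟩
    -- commutators are scalar
    have hcom : ∀ x ∈ D, ∀ y ∈ D, CA (mt x) (mt y) := by
      rintro _ ⟨x, hx, rfl⟩ _ ⟨y, hy, rfl⟩
      have h1 : ⁅x, y⁆ ∈ derivedSeries N (i + 1) := by
        rw [derivedSeries_succ]
        exact Subgroup.commutator_mem_commutator hx hy
      obtain ⟨c, hc⟩ := hyes _ h1
      have e1 : ((⁅x, y⁆ : N) : G) = (x : G) * (y : G) * (x : G)⁻¹ * (y : G)⁻¹ := by
        rw [commutatorElement_def]; rfl
      rw [e1] at hc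
      have e2 : mt ((x : G) * (y : G)) =
          mt ((x : G) * (y : G) * (x : G)⁻¹ * (y : G)⁻¹) * mt ((y : G) * (x : G)) := by
        rw [← mt_mul]; congr 1; group
      rw [hc, smul_mul_assoc, one_mul] at e2
      have e3 := congrArg Matrix.det e2
      rw [Matrix.det_smul, mt_mul, mt_mul, Matrix.det_mul, Matrix.det_mul] at e3
      simp only [Fintype.card_fin] at e3
      have e4 : (c - 1) * (c + 1) = 0 := by
        have hd : (mt (x : G)).det * (mt (y : G)).det ≠ 0 := mul_ne_zero (mt_det _) (mt_det _)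
        have : ((mt (x : G)).det * (mt (y : G)).det) * ((c - 1) * (c + 1)) = 0 := by
          linear_combination -e3
        exact (mul_eq_zero.mp this).resolve_left hd
      rw [mt_mul, mt_mul] at e2
      change CA (mt (x : G)) (mt (y : G))
      rcases mul_eq_zero.mp e4 with h5 | h5
      · left; rw [e2, show c = 1 by linarith, one_smul]
      · right; rw [e2, show c = -1 by linarith, neg_one_smul]
    -- a nonscalar element
    obtain ⟨T, hT, hTn⟩ : ∃ T ∈ D, ¬ Scal (mt T) := by
      simp only [hP] at hnot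
      push Not at hnot
      obtain ⟨x, hx, hxn⟩ := hnot
      exact ⟨x, hDm x hx, hxn⟩
    by_cases hall : ∀ x ∈ D, ∀ y ∈ D, mt x * mt y = mt y * mt x
    · exact case_one G T hTn fun g => hall _ (hDn.conj_mem T hT g) _ hT
    · push Not at hall
      obtain ⟨S, hS, U, hU, hne⟩ := hall
      have hSU : mt S * mt U = -(mt U * mt S) := (hcom S hS U hU).resolve_left hne
      exact case_two G S U hSU
        (fun g => ⟨hcom _ (hDn.conj_mem S hS g) _ hS, hcom _ (hDn.conj_mem S hS g) _ hU⟩)
        (fun g => ⟨hcom _ (hDn.conj_mem U hU g) _ hS, hcom _ (hDn.conj_mem U hU g) _ hU⟩)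

/-- the group generated by the invertible members of `S` -/
def grp (S : Finset M2) : Subgroup (GL (Fin 2) ℝ) :=
  Subgroup.closure {g | (g : M2) ∈ S}

theorem main_vs (S : Finset M2) (H : Subgroup (grp S)) (hf : H.FiniteIndex)
    (hs : Group.IsSolvable H) : PolyVertex S := by
  apply reduction
  set S0 := S.filter fun T => T.det ≠ 0 with hS0
  have hS : ∀ T ∈ S0, ∃ g : grp S, ((g : GL (Fin 2) ℝ) : M2) = T := by
    intro T hT
    rw [hS0, Finset.mem_filter] at hT
    have hu : IsUnit T := by
      rw [Matrix.isUnit_iff_isUnit_det]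
      exact isUnit_iff_ne_zero.mpr hT.2
    refine ⟨⟨hu.unit, Subgroup.subset_closure ?_⟩, rfl⟩
    change ((hu.unit : GL (Fin 2) ℝ) : M2) ∈ S
    exact hT.1
  rcases struct_of_vs (grp S) H hf hs with ⟨v, hv, h⟩ | ⟨A, hA, hc⟩
  · refine poly_of_eigen S0 v hv fun T hT => ?_
    obtain ⟨g, hg⟩ := hS T hT
    obtain ⟨c, hgc⟩ := h g
    exact ⟨c, by rw [← hg]; exact hgc⟩
  · exact poly_of_va S0 (grp S) hS A hA hc

end Pool.Oligo
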