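import Pool.Agent.Work.MP_eceddd_h11.Sep

/-!
# MP_eceddd_an: the step estimate and the separated sets (helper11)
-/

set_option autoImplicit false

open scoped Matrix

namespace Pool.Oligo

/-- one step applied to a set -/
def nxt (S : Finset M2) (X : Set V2) : Set V2 := {y | ∃ T ∈ S, ∃ x ∈ X, y = T *ᵥ x}

lemma nxt_finite (S : Finset M2) (X : Set V2) (hX : X.Finite) : (nxt S X).Finite := by
  have : nxt S X = ⋃ T ∈ S, (fun x => T *ᵥ x) '' X := by
    ext y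
    simp only [nxt, Set.mem_ofPred_eq, Set.mem_iUnion, Set.mem_image, exists_prop]
    constructor
    · rintro ⟨T, hT, x, hx, rfl⟩; exact ⟨T, hT, x, hx, rfl⟩
    · rintro ⟨T, hT, x, hx, rfl⟩; exact ⟨T, hT, x, hx, rfl⟩
  rw [this]
  exact S.finite_toSet.biUnion fun T _ => hX.image _

/-- the extreme points of the hull -/
def ex (X : Set V2) : Set V2 := Set.extremePoints ℝ (convexHull ℝ X)

lemma ex_subset (X : Set V2) : ex X ⊆ X := extremePoints_convexHull_subset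

/-- extreme points of the hull of a finite set are exposed -/
lemma exposed (Y : Set V2) (hY : Y.Finite) (y : V2) (hy : y ∈ ex Y) :
    ∃ p : V2, ∀ z ∈ Y, z ≠ y → p ⬝ᵥ z < p ⬝ᵥ y := by
  have h1 := ((convex_convexHull ℝ Y).mem_extremePoints_iff_mem_sdiff_convexHull_sdiff.mp hy).2
  have h2 : y ∉ convexHull ℝ (Y \ {y}) := by
    intro h
    apply h1
    refine convexHull_mono ?_ h
    exact Set.diff_subset_diff_left (subset_convexHull ℝ Y)
  have hfin : (Y \ {y}).Finite := hY.subset Set.diff_subset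
  obtain ⟨f, u, hf, hu⟩ := geometric_hahn_banach_closed_point (convex_convexHull ℝ (Y \ {y}))
    (hfin.isClosed_convexHull ℝ) h2
  refine ⟨fun i => f (Pi.single i 1), fun z hz hzy => ?_⟩
  have e : ∀ x : V2, (fun i => f (Pi.single i 1)) ⬝ᵥ x = f x := by
    intro x
    have hx : x = x 0 • (Pi.single 0 1 : V2) + x 1 • (Pi.single 1 1 : V2) := by
      funext i; fin_cases i <;> simp
    conv_rhs => rw [hx]
    rw [map_add, map_smul, map_smul]
    simp only [dotProduct, Fin.sum_univ_two, smul_eq_mul]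
    ring
  rw [e, e]
  exact (hf z (subset_convexHull ℝ _ ⟨hz, hzy⟩)).trans hu

/-- pulling back extreme points -/
lemma ext_pull (T : M2) (hT : T.det ≠ 0) (C1 C2 : Set V2) (h : ∀ x ∈ C1, T *ᵥ x ∈ C2) (z : V2)
    (hz : z ∈ C1) (hTz : T *ᵥ z ∈ Set.extremePoints ℝ C2) : z ∈ Set.extremePoints ℝ C1 := by
  refine ⟨hz, fun x1 h1 x2 h2 hseg => ?_⟩
  obtain ⟨a, b, ha, hb, hab, rfl⟩ := hseg
  have h3 : T *ᵥ x1 = T *ᵥ (a • x1 + b • x2) :=
    hTz.2 (h x1 h1) (h x2 h2) ⟨a, b, ha, hb, hab, by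
      rw [Matrix.mulVec_add, Matrix.mulVec_smul, Matrix.mulVec_smul]⟩
  have hinj : Function.Injective (fun x => T *ᵥ x) :=
    Matrix.mulVec_injective_iff_isUnit.mpr ((Matrix.isUnit_iff_isUnit_det T).mpr
      (isUnit_iff_ne_zero.mpr hT))
  exact hinj h3

lemma mulVec_hull (T : M2) (X Y : Set V2) (h : ∀ x ∈ X, T *ᵥ x ∈ Y) (x : V2)
    (hx : x ∈ convexHull ℝ X) : T *ᵥ x ∈ convexHull ℝ Y := by
  have h1 : (Matrix.mulVecLin T) '' (convexHull ℝ X) = convexHull ℝ ((Matrix.mulVecLin T) '' X) :=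
    (Matrix.mulVecLin T).image_convexHull X
  have h2 : Matrix.mulVecLin T x ∈ (Matrix.mulVecLin T) '' (convexHull ℝ X) := ⟨x, hx, rfl⟩
  rw [h1] at h2
  refine convexHull_mono ?_ h2
  rintro _ ⟨z, hz, rfl⟩
  exact h z hz

/-- the step estimate -/
theorem step (S : Finset M2) (hinv : ∀ T ∈ S, T.det ≠ 0) (X : Set V2) (hX : X.Finite)
    (sym : Prop) (hsym : sym → ∀ x ∈ X, -x ∈ X) (c : ℕ)
    (hpair : ∀ T ∈ S, ∀ U ∈ S, {x | x ∈ X ∧ T *ᵥ x ≠ U *ᵥ x ∧ (sym → T *ᵥ x ≠ -(U *ᵥ x)) ∧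
      T *ᵥ x ∈ ex (nxt S X) ∧ U *ᵥ x ∈ ex (nxt S X)}.encard ≤ c) :
    (ex (nxt S X)).encard ≤ (ex X).encard + (S.card * S.card * c : ℕ) := by
  classical
  set E := ex (nxt S X) with hE
  have hpull : ∀ T ∈ S, ∀ x ∈ X, T *ᵥ x ∈ E → x ∈ ex X := by
    intro T hT x hx hTx
    refine ext_pull T (hinv T hT) (convexHull ℝ X) (convexHull ℝ (nxt S X)) ?_ x
      (subset_convexHull ℝ X hx) hTx
    exact fun z hz => mulVec_hull T X (nxt S X) (fun w hw => ⟨T, hT, w, hw, rfl⟩) z hz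
  -- the choice of a matrix
  let σ : Set M2 → M2 := fun A => if h : A.Nonempty then h.some else 0
  let A : V2 → Set M2 := fun x => {T | T ∈ S ∧ T *ᵥ x ∈ E}
  have hσ : ∀ x T, T ∈ A x → σ (A x) ∈ A x := by
    intro x T hT
    have hne : (A x).Nonempty := ⟨T, hT⟩
    change (if h : (A x).Nonempty then h.some else 0) ∈ A x
    rw [dif_pos hne]
    exact hne.some_mem
  -- symmetry
  have hEneg : sym → ∀ y ∈ E, -y ∈ E := by
    intro hs y hy
    have hyX : y ∈ nxt S X := ex_subset _ hy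
    have hneg : ∀ z ∈ nxt S X, (-1 : M2) *ᵥ z ∈ nxt S X := by
      rintro z ⟨T, hT, x, hx, rfl⟩
      refine ⟨T, hT, -x, hsym hs x hx, ?_⟩
      rw [Matrix.neg_mulVec, Matrix.one_mulVec, Matrix.mulVec_neg]
    have h1 : (-1 : M2).det ≠ 0 := by rw [Matrix.det_neg]; simp
    have h2 : (-1 : M2) *ᵥ y ∈ nxt S X := hneg y hyX
    rw [Matrix.neg_mulVec, Matrix.one_mulVec] at h2
    refine ext_pull (-1) h1 (convexHull ℝ (nxt S X)) (convexHull ℝ (nxt S X))
      (fun z hz => mulVec_hull (-1) _ _ hneg z hz) (-y) (subset_convexHull ℝ _ h2) ?_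
    rw [Matrix.neg_mulVec, Matrix.one_mulVec, neg_neg]
    exact hy
  have hAneg : sym → ∀ x, A (-x) = A x := by
    intro hs x
    ext T
    constructor
    · rintro ⟨hT, h⟩
      refine ⟨hT, ?_⟩
      have := hEneg hs _ h
      rwa [Matrix.mulVec_neg, neg_neg] at this
    · rintro ⟨hT, h⟩
      refine ⟨hT, ?_⟩
      rw [Matrix.mulVec_neg]
      exact hEneg hs _ h
  set P : Set V2 := (fun x => σ (A x) *ᵥ x) '' ex X with hP
  let D : M2 → M2 → Set V2 := fun T U => {x | x ∈ X ∧ T *ᵥ x ≠ U *ᵥ x ∧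
    (sym → T *ᵥ x ≠ -(U *ᵥ x)) ∧ T *ᵥ x ∈ E ∧ U *ᵥ x ∈ E}
  set N : Set V2 := E \ P with hN
  have hNb : N.encard ≤ (S.card * S.card * c : ℕ) := by
    have h := encard_le_of_cover N
      (fun i : S × S => (fun x => (i.1 : M2) *ᵥ x) '' D i.1 i.2) (by
        rintro y ⟨hyE, hyP⟩
        obtain ⟨T, hT, x, hx, rfl⟩ := ex_subset _ hyE
        have hTA : T ∈ A x := ⟨hT, hyE⟩
        have hσA := hσ x T hTA
        have hxE : x ∈ ex X := hpull T hT x hx hyE
        refine ⟨(⟨T, hT⟩, ⟨σ (A x), hσA.1⟩), x, ⟨hx, ?_, ?_, hyE, hσA.2⟩, rfl⟩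
        · intro h
          exact hyP ⟨x, hxE, h.symm⟩
        · intro hs h
          apply hyP
          refine ⟨-x, ?_, ?_⟩
          · refine hpull T hT (-x) (hsym hs x hx) ?_
            rw [Matrix.mulVec_neg]
            exact hEneg hs _ hyE
          · change σ (A (-x)) *ᵥ (-x) = T *ᵥ x
            rw [hAneg hs x, Matrix.mulVec_neg]
            exact h.symm) c
      (fun i => (Set.encard_le_encard Set.inter_subset_right).trans
        ((Set.encard_image_le _ _).trans (hpair _ i.1.2 _ i.2.2)))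
    have hcard : Fintype.card (S × S) = S.card * S.card := by
      rw [Fintype.card_prod, Fintype.card_coe]
    rwa [hcard] at h
  have hEPN : E ⊆ P ∪ N := by
    intro y hy
    by_cases h : y ∈ P
    · exact Or.inl h
    · exact Or.inr ⟨hy, h⟩
  calc E.encard ≤ (P ∪ N).encard := Set.encard_le_encard hEPN
    _ ≤ P.encard + N.encard := Set.encard_union_le _ _
    _ ≤ (ex X).encard + (S.card * S.card * c : ℕ) := add_le_add (Set.encard_image_le _ _) hNb

/-- double survivors of a pair -/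
lemma surv (S : Finset M2) (X : Set V2) (hX : X.Finite) (T U : M2)
    (hTU : ∀ z ∈ X, U *ᵥ z ∈ nxt S X) (hT' : ∀ z ∈ X, T *ᵥ z ∈ nxt S X)
    (hT : T.det ≠ 0) (x : V2) (hx : x ∈ X) (h : T *ᵥ x ∈ ex (nxt S X)) : R1 T U X x := by
  obtain ⟨p, hp⟩ := exposed _ (nxt_finite S X hX) _ h
  have hinj : Function.Injective (fun x => T *ᵥ x) :=
    Matrix.mulVec_injective_iff_isUnit.mpr ((Matrix.isUnit_iff_isUnit_det T).mpr
      (isUnit_iff_ne_zero.mpr hT))
  refine ⟨p, fun z hz hzx => hp _ (hT' z hz) fun h => hzx (hinj h), fun z hz => ?_⟩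
  by_cases h' : U *ᵥ z = T *ᵥ x
  · rw [h']
  · exact (hp _ (hTU z hz) h').le

theorem seq_bound (S : Finset M2) (hinv : ∀ T ∈ S, T.det ≠ 0) (X : ℕ → Set V2)
    (hX : ∀ k, X (k + 1) = nxt S (X k)) (Q : Set V2 → Prop) (hQ : ∀ Y, Q Y → Q (nxt S Y))
    (hQ0 : Q (X 0)) (hfin : ∀ Y, Q Y → Y.Finite) (sym : Prop)
    (hsym : sym → ∀ Y, Q Y → ∀ x ∈ Y, -x ∈ Y) (c n : ℕ)
    (hpair : ∀ Y, Q Y → ∀ T ∈ S, ∀ U ∈ S, {x | x ∈ Y ∧ T *ᵥ x ≠ U *ᵥ x ∧
      (sym → T *ᵥ x ≠ -(U *ᵥ x)) ∧ T *ᵥ x ∈ ex (nxt S Y) ∧ U *ᵥ x ∈ ex (nxt S Y)}.encard ≤ c)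
    (hn : (ex (X 0)).encard ≤ n) (k : ℕ) :
    (ex (X k)).encard ≤ (n + k * (S.card * S.card * c) : ℕ) := by
  have hQk : ∀ k, Q (X k) := by
    intro k
    induction k with
    | zero => exact hQ0
    | succ k ih => rw [hX]; exact hQ _ ih
  induction k with
  | zero => simpa using hn
  | succ k ih =>
    have h1 := step S hinv (X k) (hfin _ (hQk k)) sym (fun hs => hsym hs _ (hQk k)) c
      (hpair _ (hQk k))
    rw [hX]
    refine h1.trans ((add_le_add_left ih _).trans (le_of_eq ?_))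
    push_cast
    ring

end Pool.Oligo
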