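import Pool.Agent.Work.MP_eceddd_h11.Count

/-!
# MP_eceddd_an: virtually solvable subgroups of GL_2(R) (helper11)

A subgroup of `GL_2(R)` with a solvable subgroup of finite index has a common real eigenvector or a
commutative subgroup of finite index.
-/

set_option autoImplicit false

open scoped Matrix

namespace Pool.Oligo

/-- scalar matrix -/
def Scal (T : M2) : Prop := ∃ c : ℝ, T = c • (1 : M2)

/-- the centraliser of a nonscalar matrix -/
lemma centr {T X : M2} (hT : ¬ Scal T) (h : X * T = T * X) :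
    ∃ p q : ℝ, X = p • (1 : M2) + q • T := by
  have e := fun i j => congrFun (congrFun h i) j
  have e00 := e 0 0
  have e01 := e 0 1
  have e10 := e 1 0
  simp only [Matrix.mul_apply, Fin.sum_univ_two] at e00 e01 e10
  have fin : ∀ p q : ℝ, X 0 0 = p + q * T 0 0 → X 0 1 = q * T 0 1 → X 1 0 = q * T 1 0 →
      X 1 1 = p + q * T 1 1 → X = p • (1 : M2) + q • T := by
    intro p q h1 h2 h3 h4
    ext i j
    fin_cases i <;> fin_cases j <;>
      simp [Matrix.add_apply, Matrix.smul_apply, h1, h2, h3, h4]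
  by_cases hb : T 0 1 = 0
  · by_cases hc : T 1 0 = 0
    · have hd : T 0 0 - T 1 1 ≠ 0 := by
        intro h0
        apply hT
        refine ⟨T 0 0, ?_⟩
        ext i j
        fin_cases i <;> fin_cases j
        · simp
        · simpa using hb
        · simpa using hc
        · simp; linarith
      have hy : X 0 1 = 0 := by
        have : (T 0 0 - T 1 1) * X 0 1 = 0 := by
          rw [hb] at e01; linear_combination -e01
        exact (mul_eq_zero.mp this).resolve_left hd
      have hz : X 1 0 = 0 := by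
        have : (T 0 0 - T 1 1) * X 1 0 = 0 := by
          rw [hc] at e10; linear_combination e10
        exact (mul_eq_zero.mp this).resolve_left hd
      have hq : (X 0 0 - X 1 1) / (T 0 0 - T 1 1) * (T 0 0 - T 1 1) = X 0 0 - X 1 1 := by
        field_simp
      refine ⟨X 0 0 - (X 0 0 - X 1 1) / (T 0 0 - T 1 1) * T 0 0,
        (X 0 0 - X 1 1) / (T 0 0 - T 1 1), fin _ _ (by ring) ?_ ?_ ?_⟩
      · rw [hy, hb, mul_zero]
      · rw [hz, hc, mul_zero]
      · linear_combination hq
    · have hq : X 1 0 / T 1 0 * T 1 0 = X 1 0 := by field_simp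
      refine ⟨X 0 0 - X 1 0 / T 1 0 * T 0 0, X 1 0 / T 1 0, fin _ _ (by ring) ?_ ?_ ?_⟩
      · have : T 1 0 * (X 0 1 - X 1 0 / T 1 0 * T 0 1) = 0 := by
          linear_combination e00 - T 0 1 * hq
        have := (mul_eq_zero.mp this).resolve_left hc
        linarith
      · exact hq.symm
      · have : T 1 0 * (X 1 1 - (X 0 0 - X 1 0 / T 1 0 * T 0 0 + X 1 0 / T 1 0 * T 1 1)) = 0 := by
          linear_combination e10 + (T 0 0 - T 1 1) * hq
        have := (mul_eq_zero.mp this).resolve_left hc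
        linarith
  · have hq : X 0 1 / T 0 1 * T 0 1 = X 0 1 := by field_simp
    refine ⟨X 0 0 - X 0 1 / T 0 1 * T 0 0, X 0 1 / T 0 1, fin _ _ (by ring) ?_ ?_ ?_⟩
    · exact hq.symm
    · have : T 0 1 * (X 1 0 - X 0 1 / T 0 1 * T 1 0) = 0 := by
        linear_combination -e00 - T 1 0 * hq
      have := (mul_eq_zero.mp this).resolve_left hb
      linarith
    · have : T 0 1 * (X 1 1 - (X 0 0 - X 0 1 / T 0 1 * T 0 0 + X 0 1 / T 0 1 * T 1 1)) = 0 := by
        linear_combination -e01 + (T 0 0 - T 1 1) * hq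
      have := (mul_eq_zero.mp this).resolve_left hb
      linarith

lemma commute_of_centr {T X Y : M2} (hT : ¬ Scal T) (h1 : X * T = T * X) (h2 : Y * T = T * Y) :
    X * Y = Y * X := by
  obtain ⟨p, q, rfl⟩ := centr hT h1
  obtain ⟨r, s, rfl⟩ := centr hT h2
  simp only [add_mul, mul_add, smul_mul_assoc, mul_smul_comm, one_mul, mul_one]
  module

lemma finiteIndex_of_range {G β : Type*} [Group G] (C : Subgroup G) (f : G → β)
    (hf : (Set.range f).Finite) (h : ∀ g g', f g = f g' → g⁻¹ * g' ∈ C) : C.FiniteIndex := by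
  have hfin : Finite (Set.range f) := hf
  have : Finite (G ⧸ C) := by
    refine Finite.of_injective (fun q : G ⧸ C => (⟨f q.out, q.out, rfl⟩ : Set.range f)) ?_
    intro q q' hq
    have h1 : f q.out = f q'.out := congrArg Subtype.val hq
    have h2 := h _ _ h1
    rw [← QuotientGroup.eq] at h2
    rw [QuotientGroup.out_eq', QuotientGroup.out_eq'] at h2
    exact h2
  exact Subgroup.finiteIndex_of_finite_quotient

/-- the matrix of an element -/
abbrev mt {G : Subgroup (GL (Fin 2) ℝ)} (g : G) : M2 := ((g : GL (Fin 2) ℝ) : M2)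

lemma mt_mul {G : Subgroup (GL (Fin 2) ℝ)} (g h : G) : mt (g * h) = mt g * mt h := rfl

lemma mt_inj {G : Subgroup (GL (Fin 2) ℝ)} {g h : G} (e : mt g = mt h) : g = h :=
  Subtype.ext (Units.ext e)

lemma mt_inv_mul {G : Subgroup (GL (Fin 2) ℝ)} (g : G) : mt g⁻¹ * mt g = 1 := by
  rw [← mt_mul, inv_mul_cancel]; rfl

lemma mt_mul_inv {G : Subgroup (GL (Fin 2) ℝ)} (g : G) : mt g * mt g⁻¹ = 1 := by
  rw [← mt_mul, mul_inv_cancel]; rfl

lemma mt_det {G : Subgroup (GL (Fin 2) ℝ)} (g : G) : (mt g).det ≠ 0 := by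
  have h := congrArg Matrix.det (mt_mul_inv g)
  rw [Matrix.det_mul, Matrix.det_one] at h
  intro h0
  rw [h0, zero_mul] at h
  exact one_ne_zero h.symm

/-- trace zero matrices square to scalars -/
lemma sq_scal {T : M2} (h : T 0 0 + T 1 1 = 0) : T * T = (-T.det) • (1 : M2) := by
  rw [Matrix.det_fin_two]
  ext i j
  fin_cases i <;> fin_cases j <;>
    simp [Matrix.mul_apply, Fin.sum_univ_two]
  · linear_combination T 0 0 * h
  · linear_combination T 0 1 * h
  · linear_combination T 1 0 * h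
  · linear_combination T 1 1 * h

lemma trace_eq_two (T : M2) : T.trace = T 0 0 + T 1 1 := by
  rw [Matrix.trace_fin_two]

/-- kernel of a nonzero square zero matrix -/
lemma ker_line {T : M2} (hT : T ≠ 0) {v w : V2} (hv : v ≠ 0) (h1 : T *ᵥ v = 0)
    (h2 : T *ᵥ w = 0) : ∃ c : ℝ, w = c • v := by
  -- a nonzero row
  obtain ⟨i, j, hij⟩ : ∃ i j, T i j ≠ 0 := by
    by_contra hcon
    push Not at hcon
    exact hT (by ext i j; exact hcon i j)
  have r1 := congrFun h1 i
  have r2 := congrFun h2 i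
  simp only [Matrix.mulVec, dotProduct, Fin.sum_univ_two, Pi.zero_apply] at r1 r2
  have hw : v 0 * w 1 - v 1 * w 0 = 0 := by
    have e0 : T i 0 * (v 0 * w 1 - v 1 * w 0) = 0 := by
      linear_combination w 1 * r1 - v 1 * r2
    have e1 : T i 1 * (v 0 * w 1 - v 1 * w 0) = 0 := by
      linear_combination v 0 * r2 - w 0 * r1
    fin_cases j
    · exact (mul_eq_zero.mp e0).resolve_left hij
    · exact (mul_eq_zero.mp e1).resolve_left hij
  by_cases hv0 : v 0 = 0
  · have hv1 : v 1 ≠ 0 := by
      intro h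
      apply hv
      funext i
      fin_cases i
      · exact hv0
      · exact h
    refine ⟨w 1 / v 1, ?_⟩
    have hw0 : w 0 = 0 := by
      rw [hv0, zero_mul, zero_sub, neg_eq_zero] at hw
      exact (mul_eq_zero.mp hw).resolve_left hv1
    funext i
    fin_cases i
    · simp [hw0, hv0]
    · simp only [Fin.mk_one, Pi.smul_apply, smul_eq_mul]; field_simp
  · refine ⟨w 0 / v 0, ?_⟩
    funext i
    fin_cases i
    · simp only [Fin.zero_eta, Pi.smul_apply, smul_eq_mul]; field_simp
    · simp only [Fin.mk_one, Pi.smul_apply, smul_eq_mul]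
      field_simp
      linear_combination hw

/-- conclusion of the structure theorem -/
def Struct (G : Subgroup (GL (Fin 2) ℝ)) : Prop :=
  (∃ v : V2, v ≠ 0 ∧ ∀ g : G, ∃ c : ℝ, mt g *ᵥ v = c • v) ∨
    ∃ A : Subgroup G, A.FiniteIndex ∧ ∀ x ∈ A, ∀ y ∈ A, x * y = y * x

/-- centraliser of a matrix in `G` -/
def cen (G : Subgroup (GL (Fin 2) ℝ)) (T : M2) : Subgroup G where
  carrier := {g | mt g * T = T * mt g}
  mul_mem' := by
    intro a b ha hb
    have ha' : mt a * T = T * mt a := ha
    have hb' : mt b * T = T * mt b := hb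
    change mt (a * b) * T = T * mt (a * b)
    rw [mt_mul, mul_assoc, hb', ← mul_assoc, ha', mul_assoc]
  one_mem' := by
    change mt (1 : G) * T = T * mt (1 : G)
    have : mt (1 : G) = 1 := rfl
    rw [this, one_mul, mul_one]
  inv_mem' := by
    intro a ha
    have ha' : mt a * T = T * mt a := ha
    change mt a⁻¹ * T = T * mt a⁻¹
    calc mt a⁻¹ * T = mt a⁻¹ * T * (mt a * mt a⁻¹) := by rw [mt_mul_inv, mul_one]
      _ = mt a⁻¹ * (T * mt a) * mt a⁻¹ := by simp only [mul_assoc]
      _ = mt a⁻¹ * (mt a * T) * mt a⁻¹ := by rw [ha']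
      _ = (mt a⁻¹ * mt a) * T * mt a⁻¹ := by simp only [mul_assoc]
      _ = T * mt a⁻¹ := by rw [mt_inv_mul, one_mul]

lemma mem_cen {G : Subgroup (GL (Fin 2) ℝ)} {T : M2} {g : G} :
    g ∈ cen G T ↔ mt g * T = T * mt g := Iff.rfl

/-- if conjugates agree the quotient is in the centraliser -/
lemma cen_of_conj {G : Subgroup (GL (Fin 2) ℝ)} {T : M2} {g g' : G}
    (h : mt g * T * mt g⁻¹ = mt g' * T * mt g'⁻¹) : g⁻¹ * g' ∈ cen G T := by
  rw [mem_cen, mt_mul]
  calc mt g⁻¹ * mt g' * T = mt g⁻¹ * (mt g' * T * mt g'⁻¹) * mt g' := by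
        simp only [mul_assoc]; rw [mt_inv_mul, mul_one]
    _ = mt g⁻¹ * (mt g * T * mt g⁻¹) * mt g' := by rw [h]
    _ = (mt g⁻¹ * mt g) * T * (mt g⁻¹ * mt g') := by simp only [mul_assoc]
    _ = T * (mt g⁻¹ * mt g') := by rw [mt_inv_mul, one_mul]

/-- Case 1: a nonscalar element which commutes with all its conjugates -/
theorem case_one (G : Subgroup (GL (Fin 2) ℝ)) (T : G) (hT : ¬ Scal (mt T))
    (h : ∀ g : G, mt (g * T * g⁻¹) * mt T = mt T * mt (g * T * g⁻¹)) : Struct G := by
  set τ : ℝ := (mt T 0 0 + mt T 1 1) / 2 with hτ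
  set T0 : M2 := mt T - τ • (1 : M2) with hT0
  have hT0n : ¬ Scal T0 := by
    rintro ⟨c, hc⟩
    apply hT
    refine ⟨c + τ, ?_⟩
    rw [add_smul, ← hc, hT0]; abel
  have htr0 : T0 0 0 + T0 1 1 = 0 := by
    simp only [hT0, Matrix.sub_apply, Matrix.smul_apply, Matrix.one_apply_eq, smul_eq_mul, hτ]
    ring
  have hsq := sq_scal htr0
  -- the relation g T0 = q T0 g
  have hq : ∀ g : G, ∃ q : ℝ, mt g * T0 = q • (T0 * mt g) := by
    intro g
    obtain ⟨p, q, hpq⟩ := centr hT (h g)
    have e1 : mt (g * T * g⁻¹) * mt g = mt g * mt T := by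
      have e0 : g * T * g⁻¹ * g = g * T := by group
      rw [← mt_mul, e0, mt_mul]
    have htr : (mt (g * T * g⁻¹)).trace = (mt T).trace := by
      have e0 : g⁻¹ * (g * T) = T := by group
      rw [mt_mul, Matrix.trace_mul_comm, ← mt_mul, e0]
    rw [trace_eq_two, trace_eq_two, hpq] at htr
    simp only [Matrix.add_apply, Matrix.smul_apply, Matrix.one_apply_eq, smul_eq_mul] at htr
    refine ⟨q, ?_⟩
    have e2 : mt g * T0 = mt g * mt T - τ • mt g := by
      rw [hT0, mul_sub, mul_smul_comm, mul_one]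
    rw [e2, ← e1, hpq, hT0, sub_mul, add_mul, smul_mul_assoc, smul_mul_assoc, smul_mul_assoc,
      one_mul, smul_sub, smul_smul]
    have e3 : p = τ - q * τ := by rw [hτ]; linarith
    rw [e3, sub_smul]
    abel
  by_cases hδ : T0.det = 0
  · -- nilpotent: common eigenvector
    left
    rw [hδ, neg_zero, zero_smul] at hsq
    have hne : T0 ≠ 0 := fun h0 => hT0n ⟨0, by rw [h0, zero_smul]⟩
    obtain ⟨i, j, hij⟩ : ∃ i j, T0 i j ≠ 0 := by
      by_contra hcon
      push Not at hcon
      exact hne (by ext i j; exact hcon i j)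
    set v : V2 := fun i => T0 i j with hv
    have hv0 : v ≠ 0 := fun h0 => hij (congrFun h0 i)
    have hTv : T0 *ᵥ v = 0 := by
      funext l
      have := congrFun (congrFun hsq l) j
      simpa [Matrix.mulVec, dotProduct, Matrix.mul_apply] using this
    refine ⟨v, hv0, fun g => ?_⟩
    obtain ⟨q, hgq⟩ := hq g
    have hq0 : q ≠ 0 := by
      intro h0
      rw [h0, zero_smul] at hgq
      apply hne
      calc T0 = (mt g⁻¹ * mt g) * T0 := by rw [mt_inv_mul, one_mul]
        _ = 0 := by rw [mul_assoc, hgq, mul_zero]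
    refine ker_line hne hv0 hTv ?_
    have e1 : q • (T0 *ᵥ (mt g *ᵥ v)) = 0 := by
      rw [Matrix.mulVec_mulVec, ← Matrix.smul_mulVec, ← hgq, ← Matrix.mulVec_mulVec, hTv,
        Matrix.mulVec_zero]
    exact (smul_eq_zero.mp e1).resolve_left hq0
  · right
    refine ⟨cen G T0, ?_, ?_⟩
    · refine finiteIndex_of_range (cen G T0) (fun g => mt g * T0 * mt g⁻¹) ?_ ?_
      · refine (Set.toFinite ({T0, -T0} : Set M2)).subset ?_
        rintro X ⟨g, rfl⟩
        obtain ⟨q, hgq⟩ := hq g
        have e1 : mt g * T0 * mt g⁻¹ = q • T0 := by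
          rw [hgq, smul_mul_assoc, mul_assoc, mt_mul_inv, mul_one]
        have e2 : (q • T0) * (q • T0) = T0 * T0 := by
          rw [← e1]
          calc mt g * T0 * mt g⁻¹ * (mt g * T0 * mt g⁻¹)
              = mt g * (T0 * (mt g⁻¹ * mt g) * T0) * mt g⁻¹ := by simp only [mul_assoc]
            _ = mt g * (T0 * T0) * mt g⁻¹ := by rw [mt_inv_mul, mul_one]
            _ = T0 * T0 := by
              rw [hsq, mul_smul_comm, mul_one, smul_mul_assoc, mt_mul_inv]
        rw [smul_mul_assoc, mul_smul_comm, smul_smul, hsq, smul_smul] at e2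
        have e3 := congrFun (congrFun e2 0) 0
        simp only [Matrix.smul_apply, Matrix.one_apply_eq, smul_eq_mul, mul_one] at e3
        have e4 : (q - 1) * (q + 1) = 0 := by
          have : T0.det * ((q - 1) * (q + 1)) = 0 := by linear_combination -e3
          exact (mul_eq_zero.mp this).resolve_left hδ
        change mt g * T0 * mt g⁻¹ ∈ ({T0, -T0} : Set M2)
        rw [e1]
        rcases mul_eq_zero.mp e4 with h5 | h5
        · left; rw [show q = 1 by linarith, one_smul]
        · right; rw [show q = -1 by linarith, neg_one_smul]; rfl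
      · intro g g' hgg
        exact cen_of_conj hgg
    · intro x hx y hy
      apply mt_inj
      rw [mt_mul, mt_mul]
      exact commute_of_centr hT0n hx hy

end Pool.Oligo
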